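import Pool.Agent.MP_8be872_ag.H56.GSpec

/-! The polynomial rings as graded representations. -/

namespace Pool.Agent.MP_8be872_ag.H56

open Finset H38 MvPolynomial

section Generic

variable {σ : Type}

lemma wh_top (wt : σ → G) : ⨆ γ, weightedHomogeneousSubmodule ℂ wt γ = ⊤ := by
  classical
  letI := weightedDecomposition ℂ wt
  exact (DirectSum.Decomposition.isInternal (weightedHomogeneousSubmodule ℂ wt)).submodule_iSup_eq_top

lemma wh_indep (wt : σ → G) : iSupIndep (weightedHomogeneousSubmodule ℂ wt) := by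
  classical
  letI := weightedDecomposition ℂ wt
  exact (DirectSum.Decomposition.isInternal (weightedHomogeneousSubmodule ℂ wt)).submodule_iSupIndep

lemma der_wt (wt : σ → G) (δ : Derivation ℂ (MvPolynomial σ ℂ) (MvPolynomial σ ℂ)) (κ : G)
    (h : ∀ c, δ (X c) ∈ weightedHomogeneousSubmodule ℂ wt (wt c + κ)) {γ : G}
    {f : MvPolynomial σ ℂ} (hf : f ∈ weightedHomogeneousSubmodule ℂ wt γ) :
    δ f ∈ weightedHomogeneousSubmodule ℂ wt (γ + κ) := by
  have mul : ∀ (a b : MvPolynomial σ ℂ) (α β : G), IsWeightedHomogeneous wt a α →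
      IsWeightedHomogeneous wt b β → IsWeightedHomogeneous wt (δ a) (α + κ) →
      IsWeightedHomogeneous wt (δ b) (β + κ) →
      IsWeightedHomogeneous wt (δ (a * b)) (α + β + κ) := by
    intro a b α β ha hb ha' hb'
    rw [Derivation.leibniz, smul_eq_mul, smul_eq_mul]
    refine IsWeightedHomogeneous.add ?_ ?_
    · have := ha.mul hb'
      rwa [← add_assoc] at this
    · have := hb.mul ha'
      rwa [← add_assoc, add_comm β] at this
  have pw : ∀ (c : σ) (n : ℕ), IsWeightedHomogeneous wt (δ (X c ^ n)) (n • wt c + κ) := by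
    intro c n
    induction n with
    | zero => simpa using isWeightedHomogeneous_zero ℂ wt _
    | succ n ih =>
      rw [pow_succ, succ_nsmul]
      exact mul _ _ _ _ ((isWeightedHomogeneous_X ℂ wt c).pow n) (isWeightedHomogeneous_X ℂ wt c)
        ih (h c)
  have key : ∀ (s : σ →₀ ℕ) (a : ℂ),
      IsWeightedHomogeneous wt (δ (monomial s a)) (Finsupp.weight wt s + κ) := by
    intro s a
    induction s using Finsupp.induction_linear generalizing a with
    | zero => simpa using isWeightedHomogeneous_zero ℂ wt _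
    | add s s' hs hs' =>
      have e : (monomial (s + s') a : MvPolynomial σ ℂ) = monomial s a * monomial s' 1 := by
        rw [monomial_mul, mul_one]
      rw [e, map_add]
      exact mul _ _ _ _ (isWeightedHomogeneous_monomial wt s a rfl)
        (isWeightedHomogeneous_monomial wt s' (1 : ℂ) rfl) (hs a) (hs' 1)
    | single c n =>
      rw [← C_mul_X_pow_eq_monomial, C_mul', Derivation.map_smul, Finsupp.weight_single]
      exact (weightedHomogeneousSubmodule ℂ wt _).smul_mem a (pw c n)
  rw [mem_weightedHomogeneousSubmodule] at hf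
  induction hf using IsWeightedHomogeneous.induction_on with
  | zero => simp
  | add p q _ _ hp hq => rw [map_add]; exact add_mem hp hq
  | monomial d r hr => rw [← hr]; exact key d r

end Generic

section Brk

variable {V W P : Type} [DecidableEq V] [DecidableEq W] [AddCommGroup P] [Module ℂ P]

/-- `-[E_r, m]` -/
def adj (r : V × V) (m : V ⊕ W → V ⊕ W → P) (p q : V ⊕ W) : P :=
  (if q = Sum.inl r.2 then m p (Sum.inl r.1) else 0) -
    if p = Sum.inl r.1 then m (Sum.inl r.2) q else 0

lemma adj_brk (δ : V × V → P →ₗ[ℂ] P) (m : V ⊕ W → V ⊕ W → P)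
    (h : ∀ r p q, δ r (m p q) = adj r m p q) (r r' : V × V) (p q : V ⊕ W) :
    δ r (δ r' (m p q)) - δ r' (δ r (m p q)) =
      (if r.2 = r'.1 then δ (r.1, r'.2) (m p q) else 0) -
        if r'.2 = r.1 then δ (r'.1, r.2) (m p q) else 0 := by
  obtain ⟨a, b⟩ := r
  obtain ⟨c, d⟩ := r'
  simp only [h, adj, map_sub, apply_ite (δ _), map_zero, Sum.inl.injEq]
  by_cases h1 : q = Sum.inl b <;> by_cases h2 : q = Sum.inl d <;> by_cases h3 : p = Sum.inl a <;>
    by_cases h4 : p = Sum.inl c <;> by_cases h5 : b = c <;> by_cases h6 : d = a <;>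
    simp_all [eq_comm] <;> abel

end Brk

variable {A V W : Type} [DecidableEq V] [DecidableEq W]

lemma act0_X (r : V × V) (ε : A) (p q : V ⊕ W) :
    act0 r (mat0 ε p q) = adj r (mat0 ε) p q := by
  simp only [act0, mat0, mkDerivation_X, adj]

lemma act_X (r : V × V) (ε : A) (p q : V ⊕ W) :
    act r (mat ε p q) = adj r (mat ε) p q := by
  simp only [act, mat, mkDerivation_X, adj]

lemma act_T (r : V × V) : act r (X none : Pol A V W) = 0 := by
  simp only [act, mkDerivation_X]

lemma brk_of {σ : Type} (δ : V × V → Derivation ℂ (MvPolynomial σ ℂ) (MvPolynomial σ ℂ))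
    (r r' : V × V) (h : ∀ c, δ r (δ r' (X c)) - δ r' (δ r (X c)) =
      (if r.2 = r'.1 then δ (r.1, r'.2) (X c) else 0) -
        if r'.2 = r.1 then δ (r'.1, r.2) (X c) else 0) :
    (δ r).toLinearMap ∘ₗ (δ r').toLinearMap - (δ r').toLinearMap ∘ₗ (δ r).toLinearMap =
      (if r.2 = r'.1 then (δ (r.1, r'.2)).toLinearMap else 0) -
        if r'.2 = r.1 then (δ (r'.1, r.2)).toLinearMap else 0 := by
  have : ⁅δ r, δ r'⁆ = (if r.2 = r'.1 then δ (r.1, r'.2) else 0) -
      if r'.2 = r.1 then δ (r'.1, r.2) else 0 := by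
    refine derivation_ext fun c => ?_
    rw [Derivation.commutator_apply, h]
    split_ifs <;> simp
  refine LinearMap.ext fun f => ?_
  have := congrArg (fun D : Derivation ℂ _ _ => D f) this
  simp only [Derivation.commutator_apply] at this
  simp only [LinearMap.sub_apply, LinearMap.comp_apply, Derivation.coeFn_coe, this]
  split_ifs <;> simp

lemma adj_wt {σ : Type} (wt : σ → G) (x : V ⊕ W → G) (τ : G)
    (m : V ⊕ W → V ⊕ W → MvPolynomial σ ℂ)
    (hm : ∀ p q, m p q ∈ weightedHomogeneousSubmodule ℂ wt (-(x p - x q + τ))) (r : V × V)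
    (p q : V ⊕ W) : adj r m p q ∈ weightedHomogeneousSubmodule ℂ wt
      (-(x p - x q + τ) + (x (.inl r.1) - x (.inl r.2))) := by
  refine sub_mem ?_ ?_
  · split_ifs with h
    · convert hm p (.inl r.1) using 2
      rw [h]; abel
    · exact zero_mem _
  · split_ifs with h
    · convert hm (.inl r.2) q using 2
      rw [h]; abel
    · exact zero_mem _

lemma rep0 (R : V × V → Prop) (x : V ⊕ W → G) (t : A → G) :
    IsRep R (fun a => x (.inl a)) (polW0 x t) (fun r => (act0 r).toLinearMap) where
  top := wh_top _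
  indep := wh_indep _
  brk r r' _ _ := brk_of act0 r r' fun c =>
    adj_brk (fun r => (act0 r).toLinearMap) (mat0 c.1) (fun r p q => act0_X r c.1 p q) r r' c.2.1 c.2.2
  wt r _ γ m hm := der_wt _ (act0 r) _ (fun c => by
    have := adj_wt (fun c => polWt x t 0 (some c)) x (t c.1) (mat0 c.1)
      (fun p q => isWeightedHomogeneous_X ℂ _ (c.1, p, q)) r c.2.1 c.2.2
    rw [← act0_X] at this
    exact this) hm

lemma rep1 (R : V × V → Prop) (x : V ⊕ W → G) (t : A → G) (φ : G) :
    IsRep R (fun a => x (.inl a)) (polW1 x t φ) (fun r => (act r).toLinearMap) where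
  top := wh_top _
  indep := wh_indep _
  brk r r' _ _ := brk_of act r r' fun c => by
    rcases c with _ | c
    · simp [act_T]
    · exact adj_brk (fun r => (act r).toLinearMap) (mat c.1) (fun r p q => act_X r c.1 p q) r r'
        c.2.1 c.2.2
  wt r _ γ m hm := der_wt _ (act r) _ (fun c => by
    rcases c with _ | c
    · rw [act_T]; exact zero_mem _
    have := adj_wt (polWt x t φ) x (t c.1) (mat c.1)
      (fun p q => isWeightedHomogeneous_X ℂ _ (some (c.1, p, q))) r c.2.1 c.2.2
    rw [← act_X] at this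
    exact this) hm

lemma emb_mat0 (ε : A) (p q : V ⊕ W) : emb (mat0 ε p q) = mat ε p q := by
  simp [emb, mat0, mat]

lemma act_emb (r : V × V) (f : Pol0 A V W) : act r (emb f) = emb (act0 r f) := by
  induction f using MvPolynomial.induction_on with
  | C a => simp [emb]
  | add p q hp hq => simp [hp, hq]
  | mul_X p c hp =>
    have : act r (emb (X c : Pol0 A V W)) = emb (act0 r (X c)) := by
      have h1 := act_X r c.1 c.2.1 c.2.2
      have h2 := act0_X r c.1 c.2.1 c.2.2
      rw [← emb_mat0] at h1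
      refine h1.trans ((congrArg emb h2).trans ?_).symm
      simp only [adj, map_sub, apply_ite emb, map_zero, emb_mat0]
    rw [map_mul, Derivation.leibniz, Derivation.leibniz, hp, this]
    simp

omit [DecidableEq V] [DecidableEq W] in
lemma emb_mem (x : V ⊕ W → G) (t : A → G) (φ γ : G) (f : Pol0 A V W) :
    emb f ∈ polW1 x t φ γ ↔ f ∈ polW0 x t γ := by
  have hw : ∀ s : (A × (V ⊕ W) × (V ⊕ W)) →₀ ℕ, Finsupp.weight (polWt x t φ) (s.mapDomain some) =
      Finsupp.weight (fun c => polWt x t 0 (some c)) s := fun s => by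
    rw [Finsupp.weight_apply, Finsupp.weight_apply,
      Finsupp.sum_mapDomain_index (by simp) (by simp [add_smul])]
    rfl
  constructor
  · intro h s hs
    rw [← hw]
    refine h ?_
    rwa [emb, coeff_rename_mapDomain _ (Option.some_injective _)]
  · intro h s hs
    obtain ⟨u, rfl, hu⟩ := coeff_rename_ne_zero _ _ _ hs
    rw [hw]
    exact h hu

omit [DecidableEq W] in
lemma sigma_wt [Fintype A] [Fintype V] [Fintype W] {x : V ⊕ W → G} {t : A → G}
    {ξ : V → G →+ ℤ} {σ : G →+ ℤ} (h : WtData x t ξ σ) (s : (A × (V ⊕ W) × (V ⊕ W)) →₀ ℕ) :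
    σ (Finsupp.weight (fun c => polWt x t 0 (some c)) s) = s.degree := by
  rw [Finsupp.weight_eq_sum, Finsupp.degree_eq_sum, map_sum, Nat.cast_sum]
  refine sum_congr rfl fun c _ => ?_
  simp [polWt, h.sx, h.st]

theorem rep : RepStmt := by
  intro A V W _ _ _ _ _ _ R x t
  refine ⟨rep0 R x t, rep1 R x t, act_emb, emb_mem x t, fun ξ σ h => ⟨fun γ => ?_, fun l => ?_⟩⟩
  · have : polW0 x t γ ≤ restrictTotalDegree _ ℂ (σ γ).toNat := fun f hf => by
      rw [mem_restrictTotalDegree, totalDegree]
      refine Finset.sup_le fun s hs => ?_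
      have := sigma_wt h s
      rw [hf (mem_support_iff.mp hs)] at this
      rw [this, Int.toNat_natCast]
      rfl
    exact Submodule.finiteDimensional_of_le this
  · refine ((Finsupp.finite_of_degree_eq l.toNat).image
      (Finsupp.weight fun c => polWt x t 0 (some c))).subset ?_
    rintro γ ⟨h1, h2⟩
    obtain ⟨f, hf, h0⟩ := (Submodule.ne_bot_iff _).mp h2
    obtain ⟨s, hs⟩ := ne_zero_iff.mp h0
    refine ⟨s, ?_, hf hs⟩
    have := sigma_wt h s
    rw [hf hs, h1] at this
    simp [this]

end Pool.Agent.MP_8be872_ag.H56
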