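import Pool.Agent.MP_8be872_ag.H56.GSpec
import Pool.Agent.MP_8be872_ag.H38.Hahn

/-! Supports of the moving and of the fixed part. -/

namespace Pool.Agent.MP_8be872_ag.H56

open Finset H38

/-- series with finitely many terms below each power of `q` -/
def LF : Subring K where
  carrier := {f | ∀ N : ℤ, {g | g ∈ f.support ∧ co 0 g ≤ N}.Finite}
  zero_mem' := fun N => by simp
  one_mem' := fun N => (Set.finite_singleton (0 : G)).subset fun g hg =>
    HahnSeries.support_single_subset hg.1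
  add_mem' := fun {a b} ha hb N => ((ha N).union (hb N)).subset fun g hg => by
    rcases HahnSeries.support_add_subset a b hg.1 with h | h
    exacts [Or.inl ⟨h, hg.2⟩, Or.inr ⟨h, hg.2⟩]
  neg_mem' := fun {a} ha N => by simpa using ha N
  mul_mem' := fun {a b} ha hb N => by
    obtain ⟨A, hA⟩ := exists_FF a
    obtain ⟨B, hB⟩ := exists_FF b
    refine (((ha (N - B)).prod (hb (N - A))).image fun p => p.1 + p.2).subset fun g hg => ?_
    obtain ⟨x, hx, y, hy, rfl⟩ := HahnSeries.support_mul_subset hg.1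
    have h1 : A ≤ co 0 x := hA hx
    have h2 : B ≤ co 0 y := hB hy
    have h3 : co 0 x + co 0 y ≤ N := by simpa using hg.2
    exact ⟨(x, y), ⟨⟨hx, show co 0 x ≤ _ by omega⟩, ⟨hy, show co 0 y ≤ _ by omega⟩⟩, rfl⟩

lemma mon_LF (g : G) : mon g ∈ LF := fun _ =>
  (Set.finite_singleton g).subset fun _ hg => HahnSeries.support_single_subset hg.1

lemma geo_LF_pos {u : G} (hu : 0 < co 0 u) : (1 - mon u)⁻¹ ∈ LF := fun N => by
  have h := geo_mem (S := AddSubmonoid.multiples u) (pos_of_co0 hu) ⟨1, one_nsmul u⟩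
  refine ((Set.finite_Iic N.toNat).image fun n : ℕ => n • u).subset fun g hg => ?_
  obtain ⟨n, rfl⟩ := h hg.1
  refine ⟨n, ?_, rfl⟩
  have h2 : (n : ℤ) * co 0 u ≤ N := by simpa using hg.2
  have h3 : (n : ℤ) ≤ n * co 0 u := le_mul_of_one_le_right (Nat.cast_nonneg n) hu
  simp only [Set.mem_Iic]
  omega

lemma geo_LF {u : G} (hu : co 0 u ≠ 0) : (1 - mon u)⁻¹ ∈ LF := by
  rcases hu.lt_or_gt with h | h
  · rw [geo_flip (by rintro rfl; simp at h)]
    exact neg_mem (mul_mem (mon_LF _) (geo_LF_pos (by simpa using h)))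
  · exact geo_LF_pos h

/-- units of `LF` -/
def LU : Submonoid K where
  carrier := {f | f ∈ LF ∧ f⁻¹ ∈ LF}
  one_mem' := ⟨one_mem _, by simpa using one_mem LF⟩
  mul_mem' := fun ha hb => ⟨mul_mem ha.1 hb.1, by rw [mul_inv]; exact mul_mem ha.2 hb.2⟩

lemma LU_inv {f : K} (h : f ∈ LU) : f⁻¹ ∈ LU := ⟨h.2, by simpa using h.1⟩

lemma mon_LU (g : G) : mon g ∈ LU := ⟨mon_LF g, by rw [← mon_neg]; exact mon_LF _⟩

lemma lamM_LU {g : G} (hg : co 0 g = 0) (m : ℤ) : lamM g m ∈ LU := by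
  have key : ∀ l : ℤ, l ≠ 0 → 1 - mon (-(g + l • qq)) ∈ LU := fun l hl =>
    ⟨sub_mem (one_mem _) (mon_LF _), geo_LF (by simpa [hg, qq, co_gen] using hl)⟩
  refine mul_mem (LU_inv (prod_mem fun l hl => key l ?_)) (prod_mem fun l hl => key l ?_)
  · have := (mem_Icc.mp hl).1
    omega
  · have := (mem_Ioo.mp hl).2
    omega

lemma co0_tau : co 0 tau = 0 := by simp [tau, co_gen]
lemma co0_hb : co 0 hb = 0 := by simp [hb, co0_tau]
lemma co0_xV (i a : ℕ) : co 0 (xV i a) = 0 := by simp [xV, co_gen]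
lemma co0_uF (i a : ℕ) : co 0 (uF i a) = 0 := by simp [uF, co_gen]
lemma co0_tE (e : ℕ) : co 0 (tE e) = 0 := by simp [tE, co_gen]

lemma pairM_LU {g : G} (hg : co 0 g = 0) (m : ℤ) : pairM g m ∈ LU :=
  mul_mem (mul_mem (lamM_LU hg m) (lamM_LU (by simp [hg, co0_hb]) _)) (mon_LU _)

variable (Q : Quiv) (w v : Fin Q.n → ℕ)

lemma moving_LF (d : Fin Q.n → ℕ → ℤ) : moving Q w v d ∈ LF := by
  refine (?_ : moving Q w v d ∈ LU).1
  refine mul_mem (mul_mem ?_ ?_) ?_ <;>
    refine prod_mem fun _ _ => prod_mem fun _ _ => prod_mem fun _ _ => ?_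
  · exact pairM_LU (by simp [co0_tau, co0_xV, co0_tE]) _
  · exact pairM_LU (by simp [co0_tau, co0_xV, co0_uF]) _
  · exact LU_inv (pairM_LU (by simp [co0_xV]) _)

lemma pairM_zero (g : G) : pairM g 0 = 1 := by simp [pairM, lamM, mon_zero]

lemma moving_zero : moving Q w v (fun _ _ => 0) = 1 := by simp [moving, pairM_zero]

lemma co0_basWt (p : Bas Q v ⊕ Bas Q w) : co 0 (basWt Q w v p) = 0 := by
  rcases p with a | a
  exacts [co0_xV _ _, co0_uF _ _]

lemma co0_arrWt (ε : Arr Q) : co 0 (arrWt Q ε) = 0 := by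
  obtain ⟨_ | e, _ | _⟩ := ε <;> simp [arrWt, co0_tau, co0_tE]

lemma fixB_mem (d : Fin Q.n → ℕ → ℤ) : fixB Q w v d ∈ CS (co 0).ker.toAddSubmonoid := by
  refine mul_mem (mul_mem (prod_mem fun r _ => ?_) (prod_mem fun β _ => ?_))
    (prod_mem fun c _ => ?_)
  · exact sub_mem (one_mem _) (mon_mem_CS (by simp [co0_xV]))
  · exact sub_mem (one_mem _) (mon_mem_CS (by simp [relWt, co0_xV, co0_hb]))
  · obtain ⟨ε, p, q⟩ := c
    refine geo_mem' ?_ ?_ <;> simp [polWt, co0_basWt, co0_arrWt]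

lemma fixB_coeff (d : Fin Q.n → ℕ → ℤ) {γ : G} (h : co 0 γ ≠ 0) : (fixB Q w v d).coeff γ = 0 := by
  by_contra H
  exact h (fixB_mem Q w v d H)

lemma coeff_mul_finsum (a b : K) (g : G) :
    (a * b).coeff g = ∑ᶠ β, a.coeff β * b.coeff (g - β) := by
  classical
  rw [HahnSeries.coeff_mul, finsum_eq_sum_of_support_subset
    (s := (addAntidiagonal a.isPWO_support b.isPWO_support g).image Prod.fst), sum_image]
  · refine sum_congr rfl fun p hp => ?_
    rw [← (mem_addAntidiagonal.mp hp).2.2, add_sub_cancel_left]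
  · intro p hp p' hp' h
    have h1 := (mem_addAntidiagonal.mp hp).2.2
    have h2 := (mem_addAntidiagonal.mp hp').2.2
    refine Prod.ext h ?_
    rw [← h2, h] at h1
    exact add_left_cancel h1
  · intro β hβ
    have := mul_ne_zero_iff.mp hβ
    simp only [coe_image, Set.mem_image, mem_coe]
    exact ⟨(β, g - β), mem_addAntidiagonal.mpr ⟨this.1, this.2, by simp⟩, rfl⟩

lemma coeff_mon_mul (u : G) (f : K) (g : G) : (mon u * f).coeff g = f.coeff (g - u) := by
  have := HahnSeries.coeff_single_mul_add (r := (1 : ℚ)) (x := f) (a := g - u) (b := u)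
  rw [sub_add_cancel, one_mul] at this
  exact this

end Pool.Agent.MP_8be872_ag.H56
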