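import Pool.Agent.MP_8be872_ag.H56.FinA
import Pool.Agent.MP_8be872_ag.H56.FinB
import Pool.Agent.MP_8be872_ag.H38.Final

/-! Assembly. -/

namespace Pool.Agent.MP_8be872_ag.H56

open Finset H38 Filter

variable {Q : Quiv} {w v : Fin Q.n → ℕ}

/-- the sum of all Chern roots -/
noncomputable def allX (Q : Quiv) (v : Fin Q.n → ℕ) : G :=
  ∑ i : Fin Q.n, ∑ a ∈ range (v i), xV i a

lemma cuts_wt {F : Pol (Arr Q) (Bas Q v) (Bas Q w)} {φ : G} (hF : Cuts Q w v F φ) (h0 : F ≠ 0) :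
    co 0 φ = 0 ∧ φ + allX Q v ∈ Sall := by
  obtain ⟨f, rfl⟩ := exists_emb hF.1
  have hf : f ∈ polW0 (basWt Q w v) (arrWt Q) φ := (emb_mem _ _ φ φ f).mp hF.2.1
  obtain ⟨s, hs⟩ := MvPolynomial.ne_zero_iff.mp (show f ≠ 0 by rintro rfl; simp at h0)
  have key : ∀ π : G →+ ℤ, (∀ p, π (basWt Q w v p) = 0) → (∀ ε, π (arrWt Q ε) = 0) → π φ = 0 := by
    intro π h1 h2
    rw [← hf hs, Finsupp.weight_eq_sum, map_sum]
    refine sum_eq_zero fun c _ => ?_
    obtain ⟨ε, p, q⟩ := c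
    simp [polWt, h1, h2]
  refine ⟨key _ (co0_basWt Q w v) (co0_arrWt Q), fun i a => ?_⟩
  rw [map_add, allX]
  simp only [map_sum, co_ix_xV]
  by_cases h : ∃ j : Fin Q.n, (j : ℕ) = i ∧ a < v j
  · obtain ⟨j, rfl, ha⟩ := h
    have h1 : co (ix j a) φ = -1 := hF.2.2.1 ⟨j, ⟨a, ha⟩⟩
    rw [h1, sum_eq_single j, sum_eq_single a] <;> simp +contextual [ha, Fin.val_inj]
  · push Not at h
    rw [key, zero_add]
    · refine sum_eq_zero fun j _ => sum_eq_zero fun b hb => if_neg ?_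
      rintro ⟨h1, rfl⟩
      exact absurd (mem_range.mp hb) (not_lt.mpr (h j h1))
    · rintro (b | b)
      · rw [basWt, co_ix_xV, if_neg]
        rintro ⟨h1, h2⟩
        exact absurd b.2.2 (not_lt.mpr (h2 ▸ h b.1 h1))
      · simp only [basWt, uF, ix, co_gen]
        rw [if_neg (by omega)]
    · rintro ⟨_ | e, _ | _⟩ <;>
        simp only [ix, arrWt, tE, tau, map_sub, map_neg, co_gen] <;>
        (repeat rw [if_neg (by omega)]) <;> rfl

/-- The conclusion of `fix_main`, iterated. -/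
def FixOK (Q : Quiv) (w v : Fin Q.n → ℕ) (d : Fin Q.n → ℕ → ℤ)
    (F : Pol (Arr Q) (Bas Q v) (Bas Q w)) (φ : G) : Prop :=
  ∃ C : ℤ, ∀ (γ : G) (k : ℕ), (∀ a, xi Q v a γ - k ≤ -C) →
    (∀ p p', FiniteDimensional ℂ (Hfix Q w v d F φ γ p p')) ∧
    (chi Q w v d F φ γ : ℚ) = (fixB Q w v d).coeff (γ + k • φ)

lemma fixOK (hce : CEStmt) (hloc : LocStmt) (hvan : VanStmt) (hkos : KosStmt)
    (hchar : CharStmt) (hcut : CutStmt) {d : Fin Q.n → ℕ → ℤ} (hd : Incr Q v d)
    {F : Pol (Arr Q) (Bas Q v) (Bas Q w)} {φ : G} (hF : Cuts Q w v F φ) : FixOK Q w v d F φ := by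
  obtain ⟨h1, C, h2⟩ := fix_main Q w v hce hloc hvan hkos hchar hcut d hd F φ hF
  refine ⟨C, fun γ k => ?_⟩
  induction k generalizing γ with
  | zero => simpa using h2 γ
  | succ k ih =>
    intro hγ
    obtain ⟨h3, h4⟩ := ih (γ + φ) fun a => by
      have h5 : xi Q v a φ = -1 := hF.2.2.1 a
      have := hγ a
      rw [map_add, h5]
      push_cast at this
      omega
    refine ⟨fun p p' => ?_, ?_⟩
    · haveI := h3 p p'
      exact (h1 γ p p').some.symm.finiteDimensional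
    · rw [succ_nsmul', ← add_assoc, ← h4]
      simp only [chi, fun p p' => (h1 γ p p').some.finrank_eq]

lemma ev_deep (C : ℤ) (γ : G) : ∀ᶠ k : ℕ in atTop, ∀ a, xi Q v a γ - k ≤ -C :=
  eventually_all.mpr fun a => (eventually_ge_atTop (xi Q v a γ + C).toNat).mono fun k hk => by omega

lemma FixOK.sum {d : Fin Q.n → ℕ → ℤ} {F : Pol (Arr Q) (Bas Q v) (Bas Q w)} {φ : G}
    (h : FixOK Q w v d F φ) (h0 : co 0 φ = 0) (g : G) :
    (∀ p p', FiniteDimensional ℂ (Hfix Q w v d F φ g p p')) ∧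
    (Function.support fun β : G =>
      (moving Q w v d).coeff β * chi Q w v d F φ (g - β)).Finite ∧
    ∀ᶠ k : ℕ in atTop, ∑ᶠ β : G, (moving Q w v d).coeff β * chi Q w v d F φ (g - β) =
      (moving Q w v d * fixB Q w v d).coeff (g + k • φ) := by
  obtain ⟨C, hC⟩ := h
  have hz : ∀ γ, co 0 γ ≠ 0 → (chi Q w v d F φ γ : ℚ) = 0 := fun γ hγ => by
    obtain ⟨k, hk⟩ := (ev_deep (Q := Q) (v := v) C γ).exists
    rw [(hC γ k hk).2, fixB_coeff]
    simpa [h0] using hγ
  have hfin := moving_LF Q w v d (co 0 g)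
  refine ⟨(hC g _ (ev_deep C g).exists.choose_spec).1, hfin.subset fun β hβ => ?_, ?_⟩
  · have := mul_ne_zero_iff.mp hβ
    refine ⟨this.1, ?_⟩
    have h1 := mt (hz _) this.2
    simp only [map_sub, ne_eq, not_not] at h1
    omega
  · refine ((eventually_all_finite hfin).mpr fun β _ => ev_deep (Q := Q) (v := v) C (g - β)).mono
      fun k hk => ?_
    rw [coeff_mul_finsum]
    refine finsum_congr fun β => ?_
    by_cases h1 : (moving Q w v d).coeff β = 0
    · simp [h1]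
    by_cases h2 : co 0 β ≤ co 0 g
    · rw [(hC _ k (hk β ⟨h1, h2⟩)).2, add_sub_right_comm]
    · rw [hz, fixB_coeff]
      · simp only [map_sub, map_add, map_nsmul, h0, smul_zero]
        omega
      · simp only [map_sub]
        omega

lemma incr_of_mem {D : Fin Q.n →₀ ℕ} {d : Fin Q.n → ℕ → ℕ} (hd : d ∈ types Q v D) :
    Incr Q v fun i a => d i a := fun i b hb a ha =>
  Nat.cast_le.mpr ((mem_filter.mp hd).2 i b (mem_range.mpr hb) a (mem_range.mpr ha))

lemma num_sym (hsym : SymStmt) (k : ℕ) (D : Fin Q.n →₀ ℕ) :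
    num Q w v (fun _ => k) D = (∏ i, (v i).factorial) • ∑ d ∈ types Q v D,
      res Sall (mon (k • allX Q v) *
        (moving Q w v (fun i a => d i a) * fixB Q w v fun i a => d i a)) := by
  have := hsym Q w v (fun _ => k) D
  simp only [natCast_zsmul] at this
  rw [num, this, nsmul_eq_mul, Nat.cast_prod]
  simp only [ct_eq, allX, sum_nsmul]

lemma num_coeff (hsym : SymStmt) (k : ℕ) (D : Fin Q.n →₀ ℕ) {φ g : G} (hφ : φ + allX Q v ∈ Sall)
    (hg : g ∈ Sall) : (num Q w v (fun _ => k) D).coeff (g + k • (φ + allX Q v)) =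
      (∏ i, (v i).factorial : ℕ) * ∑ d ∈ types Q v D,
        (moving Q w v (fun i a => d i a) * fixB Q w v fun i a => d i a).coeff (g + k • φ) := by
  rw [num_sym hsym, HahnSeries.coeff_nsmul, Pi.smul_apply, nsmul_eq_mul, HahnSeries.coeff_sum]
  refine congrArg _ (sum_congr rfl fun d _ => ?_)
  rw [res_coeff, if_pos (show _ ∈ (Sall : Set G) from Sall.add_mem hg (Sall.nsmul_mem hφ k)), coeff_mon_mul, nsmul_add,
    ← add_assoc, add_sub_cancel_right]

lemma types_zero : types Q v 0 = {0} := by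
  ext d
  simp only [types, mem_filter, Fintype.mem_piFinset, Finsupp.coe_zero, Pi.zero_apply,
    piAntidiag_zero, mem_singleton]
  refine ⟨fun h => funext h.1, ?_⟩
  rintro rfl
  simp

lemma num_zero (hsym : SymStmt) (hQ : ∀ e, Q.hd e ≠ Q.tl e) (hv : InOrbit Q w fun i => v i) :
    ∃ c ∈ Sall, ∀ᶠ k : ℕ in atTop,
      num Q w v (fun _ => k) 0 = (∏ i, (v i).factorial : ℕ) * mon (k • c) := by
  obtain ⟨h1, c, hc, h2⟩ := deep w v hQ H86.weyl hv
  obtain ⟨-, h4, -⟩ := rhs_lim w v (H86.weyl Q hQ w).2.2.1 h1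
  have ht : Tendsto (fun k : ℕ => fun _ : Fin Q.n => k) atTop atTop :=
    tendsto_atTop.mpr fun m => (eventually_ge_atTop (univ.sup m)).mono fun k hk i =>
      (le_sup (mem_univ i)).trans hk
  refine ⟨∑ i, c i, sum_mem fun i _ => (hc i).1, (ht.eventually (h2 0 1)).mono fun k hk => ?_⟩
  have e := num_eq w v (fun _ => k) 0
  simp only [Finsupp.coe_zero, Pi.zero_apply, Nat.cast_zero, mul_zero, zpow_zero, prod_const_one,
    mul_one] at e
  rw [Err, ← e] at hk
  simp only [Finsupp.coe_zero, Pi.zero_apply, Nat.cast_zero, bdot, mul_zero,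
    sum_const_zero, neg_zero, zpow_zero, h4, mul_one, natCast_zsmul, sum_nsmul] at hk
  rw [← sub_eq_zero]
  have hm : num Q w v (fun _ => k) 0 - (∏ i, (v i).factorial : ℕ) * mon (k • ∑ i, c i) ∈
      CS (co 0).ker.toAddSubmonoid := by
    refine sub_mem ?_ (mul_mem (natCast_mem _ _) (mon_mem_CS ?_))
    · rw [num_sym hsym, types_zero, sum_singleton]
      refine nsmul_mem (res_mem_of (T := (co 0).ker.toAddSubmonoid) ?_) _
      refine (CS _).mul_mem (mon_mem_CS ?_) ((CS _).mul_mem ?_ (fixB_mem Q w v _))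
      · simp [allX, co0_xV]
      · have := moving_zero Q w v
        simp only [Pi.zero_apply, Nat.cast_zero, this]
        exact one_mem _
    · exact (co 0).ker.nsmul_mem (sum_mem fun i _ => (hc i).2) _
  ext g
  by_contra H
  have h5 : co 0 g = 0 := hm H
  have h6 : 1 ≤ co 0 g := hk H
  omega

theorem geo (hce : CEStmt) (hloc : LocStmt) (hvan : VanStmt) (hkos : KosStmt)
    (hchar : CharStmt) (hcut : CutStmt) (horb : OrbitStmt) (hsym : SymStmt) : GeoStmt := by
  intro Q hQ w v hv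
  obtain ⟨x₀, h0, hs, -⟩ := horb Q hQ w v hv
  obtain ⟨hfin, hmain⟩ := main Q hQ w v hv
  refine ⟨⟨x₀, h0, hs⟩, (hcut Q w v).2.2.1 horb hQ hv, (hcut Q w v).1, hfin, fun F φ hF => ?_⟩
  obtain ⟨hφ0, hφ⟩ := cuts_wt hF (by
    rintro rfl
    exact (hF.2.2.2.2 x₀ h0).mpr hs (map_zero _))
  have hok : ∀ D, ∀ d ∈ types Q v D, FixOK Q w v (fun i a => d i a) F φ := fun D d hd =>
    fixOK hce hloc hvan hkos hchar hcut (incr_of_mem hd) hF
  have hW : ((∏ i, (v i).factorial : ℕ) : ℚ) ≠ 0 :=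
    Nat.cast_ne_zero.mpr (prod_ne_zero_iff.mpr fun j _ => Nat.factorial_ne_zero _)
  have hWK : ((∏ i, (v i).factorial : ℕ) : K) ≠ 0 :=
    Nat.cast_ne_zero.mpr (prod_ne_zero_iff.mpr fun j _ => Nat.factorial_ne_zero _)
  obtain ⟨c, hc, hnum⟩ := num_zero hsym hQ hv
  have hcφ : c = φ + allX Q v := by
    obtain ⟨C, hC⟩ := hok 0 0 (by simp [types_zero])
    obtain ⟨k, hk⟩ := eventually_atTop.mp (hnum.and (eventually_ge_atTop C.toNat))
    have key : ∀ g ∈ Sall, ∀ l ≥ k, (mon (l • c)).coeff (g + l • (φ + allX Q v)) =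
        chi Q w v (fun i a => (0 : Fin Q.n → ℕ → ℕ) i a) F φ g := fun g hg l hl => by
      have h1 := num_coeff (w := w) hsym l 0 hφ hg
      have h2 := moving_zero Q w v
      rw [(hk l hl).1, types_zero, sum_singleton, ← nsmul_eq_mul, HahnSeries.coeff_nsmul,
        Pi.smul_apply, nsmul_eq_mul] at h1
      rw [mul_left_cancel₀ hW h1, (hC g l fun a => ?_).2]
      · simp only [Pi.zero_apply, Nat.cast_zero, h2, one_mul]
      · have h3 : xi Q v a g = 0 := hg a.1 a.2
        have := (hk l hl).2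
        omega
    have hg : k • c - k • (φ + allX Q v) ∈ Sall :=
      sub_mem (Sall.nsmul_mem hc k) (Sall.nsmul_mem hφ k)
    have h1 := key _ hg k le_rfl
    rw [← key _ hg (k + 1) (Nat.le_succ k), sub_add_cancel, mon, mon,
      HahnSeries.coeff_single_same] at h1
    have h2 := HahnSeries.support_single_subset (a := (k + 1) • c) (r := (1 : ℚ))
      (show _ ≠ _ from h1 ▸ one_ne_zero)
    rw [Set.mem_singleton_iff, succ_nsmul, succ_nsmul, ← add_assoc, sub_add_cancel] at h2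
    exact (add_left_cancel h2).symm
  subst hcφ
  refine fun D => ⟨fun d hd g => ⟨((hok D d hd).sum hφ0 g).1, ((hok D d hd).sum hφ0 g).2.1⟩,
    fun g hg => ?_⟩
  have ht : Tendsto (fun k : ℕ => fun _ : Fin Q.n => k) atTop atTop :=
    tendsto_atTop.mpr fun m => (eventually_ge_atTop (univ.sup m)).mono fun k hk i =>
      (le_sup (mem_univ i)).trans hk
  set N := ∑ i, aExp Q w v i * D i with hN
  have hgN : g + N • tau ∈ Sall := add_mem hg (Sall.zsmul_mem (fun j a => co_ix_tau _ _) _)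
  obtain ⟨k, ⟨h1, h2⟩, h3⟩ := (((ht.eventually (hmain D (ofLex g 0 + 1))).and hnum).and
    ((eventually_all_finset (types Q v D)).mpr fun d hd =>
      ((hok D d hd).sum hφ0 (g + N • tau)).2.2)).exists
  refine h1.mono fun J hJ => ?_
  rw [← hJ g (lt_add_one _), vertexCoeff, sum_congr rfl h3]
  have h4 := num_coeff (w := w) hsym k D hφ hgN
  have h5 : vertex Q w v (fun _ => k) D = ((-1 : ℚ) ^ N / (∏ i, (v i).factorial : ℕ)) •
      (mon (-(N • tau + k • (φ + allX Q v))) * num Q w v (fun _ => k) D) := by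
    rw [vertex, h2, zpow_sum' (neg_ne_zero.mpr (mon_ne _)), ← hN, neg_eq_neg_one_mul (mon _),
      mul_zpow, ← mon_zsmul, Algebra.smul_def, map_div₀, map_zpow₀, map_neg, map_one, map_natCast,
      neg_add, mon_add, mon_neg (k • _), zsmul_neg]
    have := mon_ne (k • (φ + allX Q v))
    field_simp
  rw [h5, HahnSeries.coeff_smul, coeff_mon_mul, sub_neg_eq_add, ← add_assoc, h4, smul_eq_mul]
  field_simp

end Pool.Agent.MP_8be872_ag.H56
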