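import Pool.Agent.MP_8be872_ag.H56.Geo

/-! Interfaces for the geometric layer (definitions and statements only). -/

namespace Pool.Agent.MP_8be872_ag.H56

open Finset H38

section Abstract

variable {V M : Type} [Fintype V] [DecidableEq V] [AddCommGroup M] [Module ℂ M]
  (R : V × V → Prop) [DecidablePred R]

/-- A graded representation of `𝔲`. -/
structure IsRep (x : V → G) (W : G → Submodule ℂ M) (ρ : V × V → M →ₗ[ℂ] M) : Prop where
  top : ⨆ γ, W γ = ⊤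
  indep : iSupIndep W
  brk : ∀ r r', R r → R r' → ρ r ∘ₗ ρ r' - ρ r' ∘ₗ ρ r =
    (if r.2 = r'.1 then ρ (r.1, r'.2) else 0) - if r'.2 = r.1 then ρ (r'.1, r.2) else 0
  wt : ∀ r, R r → ∀ γ, ∀ m ∈ W γ, ρ r m ∈ W (γ + (x r.1 - x r.2))

/-- A homogeneous `𝔲`-stable subspace. -/
structure IsSub (W : G → Submodule ℂ M) (ρ : V × V → M →ₗ[ℂ] M) (Z : Submodule ℂ M) : Prop where
  homog : Z ≤ ⨆ γ, Z ⊓ W γ
  stab : ∀ r, R r → ∀ m ∈ Z, ρ r m ∈ Z

/-- `H^•(𝔲, Z / B)` vanishes in weight `γ`. -/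
def Acyc (x : V → G) (W : G → Submodule ℂ M) (ρ : V × V → M →ₗ[ℂ] M) (Z B : Submodule ℂ M)
    (γ : G) : Prop := ∀ p, cocycles R x W ρ Z B γ p ≤ cobounds R x W ρ Z B γ p

/-- The weight `γ` part of `Z / B`. -/
abbrev Qt (W : G → Submodule ℂ M) (Z B : Submodule ℂ M) (γ : G) : Type :=
  (Z ⊓ W γ : Submodule ℂ M) ⧸ B.submoduleOf (Z ⊓ W γ)

end Abstract

/-- `R` is a strict partial order relation. -/
def IsRoots {V : Type} (R : V × V → Prop) : Prop :=
  (∀ a, ¬ R (a, a)) ∧ ∀ a b c, R (a, b) → R (b, c) → R (a, c)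

/-- Module CE: homological algebra of the Chevalley-Eilenberg complex. -/
def CEStmt : Prop :=
  ∀ (V : Type) [Fintype V] [DecidableEq V] (R : V × V → Prop) [DecidablePred R] (x : V → G),
    IsRoots R → ∀ (M : Type) [AddCommGroup M] [Module ℂ M] (W : G → Submodule ℂ M)
      (ρ : V × V → M →ₗ[ℂ] M), IsRep R x W ρ →
    (dCE R ρ ∘ₗ dCE R ρ = 0) ∧
    (∀ Z, IsSub R W ρ Z → ∀ γ p, ∀ φ ∈ cochains R x W Z γ p,
      dCE R ρ φ ∈ cochains R x W Z γ (!p)) ∧
    (∀ Z B γ, Acyc R x W ρ Z B γ ↔ ∀ p, Subsingleton (Hu R x W ρ Z B γ p)) ∧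
    (∀ Z Y B, IsSub R W ρ Z → IsSub R W ρ Y → IsSub R W ρ B → B ≤ Y → Y ≤ Z → ∀ γ,
      (Acyc R x W ρ Y B γ → ∀ p, Nonempty (Hu R x W ρ Z B γ p ≃ₗ[ℂ] Hu R x W ρ Z Y γ p)) ∧
      (Acyc R x W ρ Z Y γ → ∀ p, Nonempty (Hu R x W ρ Y B γ p ≃ₗ[ℂ] Hu R x W ρ Z B γ p))) ∧
    (∀ (Y : ℕ → Submodule ℂ M) B, Monotone Y → ∀ γ, (∀ m, Acyc R x W ρ (Y m) B γ) →
      Acyc R x W ρ (⨆ m, Y m) B γ) ∧
    (∀ Z B, IsSub R W ρ Z → IsSub R W ρ B → B ≤ Z → ∀ γ,
      (∀ γ', FiniteDimensional ℂ (Qt W Z B γ')) →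
      (∀ p, FiniteDimensional ℂ (Hu R x W ρ Z B γ p)) ∧
      (Module.finrank ℂ (Hu R x W ρ Z B γ false) : ℤ) - Module.finrank ℂ (Hu R x W ρ Z B γ true) =
        ∑ S : Finset (Subtype R), (-1) ^ S.card *
          (Module.finrank ℂ (Qt W Z B (γ - ∑ r ∈ S, (x r.1.2 - x r.1.1))) : ℤ)) ∧
    ∀ (M' : Type) [AddCommGroup M'] [Module ℂ M'] (W' : G → Submodule ℂ M')
      (ρ' : V × V → M' →ₗ[ℂ] M'), IsRep R x W' ρ' → ∀ (Z B : Submodule ℂ M)
      (Z' B' : Submodule ℂ M') (ψ : M' →ₗ[ℂ] M) (κ : G),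
      IsSub R W ρ Z → IsSub R W ρ B → B ≤ Z → IsSub R W' ρ' Z' → IsSub R W' ρ' B' → B' ≤ Z' →
      (∀ γ, ∀ m ∈ W' γ, ψ m ∈ W (γ + κ)) → (∀ r, R r → ∀ m ∈ Z', ψ (ρ' r m) - ρ r (ψ m) ∈ B) →
      Z'.map ψ ≤ Z → B'.map ψ ≤ B → Z ≤ Z'.map ψ ⊔ B → Z' ⊓ B.comap ψ ≤ B' →
      ∀ γ p, Nonempty (Hu R x W' ρ' Z' B' γ p ≃ₗ[ℂ] Hu R x W ρ Z B (γ + κ) p)

section Fun0

variable {A V W : Type} [Fintype A] [Fintype V] [Fintype W] [DecidableEq A] [DecidableEq V]
  [DecidableEq W]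

/-- Polynomial functions of the matrices (no variable `T`). -/
abbrev Pol0 (A V W : Type) := MvPolynomial (A × (V ⊕ W) × (V ⊕ W)) ℂ

noncomputable def mat0 (ε : A) : Matrix (V ⊕ W) (V ⊕ W) (Pol0 A V W) :=
  fun p q => MvPolynomial.X (ε, p, q)

noncomputable def act0 (r : V × V) : Derivation ℂ (Pol0 A V W) (Pol0 A V W) :=
  MvPolynomial.mkDerivation ℂ fun c =>
    (if c.2.2 = Sum.inl r.2 then mat0 c.1 c.2.1 (Sum.inl r.1) else 0) -
      if c.2.1 = Sum.inl r.1 then mat0 c.1 (Sum.inl r.2) c.2.2 else 0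

noncomputable def polW0 (x : V ⊕ W → G) (t : A → G) (γ : G) : Submodule ℂ (Pol0 A V W) :=
  MvPolynomial.weightedHomogeneousSubmodule ℂ (fun c => polWt x t 0 (some c)) γ

noncomputable def polW1 (x : V ⊕ W → G) (t : A → G) (φ γ : G) : Submodule ℂ (Pol A V W) :=
  MvPolynomial.weightedHomogeneousSubmodule ℂ (polWt x t φ) γ

/-- The inclusion of `T`-free polynomials. -/
noncomputable def emb : Pol0 A V W →ₐ[ℂ] Pol A V W := MvPolynomial.rename some

/-- Vectors of functions obtained from columns `W → V` by applying arrows and projecting to a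
vertex. -/
inductive IsCol {ι : Type} [DecidableEq ι] (vert : V → ι) : (V → Pol0 A V W) → Prop
  | base (ε : A) (b : W) (j : ι) :
      IsCol vert fun a => if vert a = j then mat0 ε (.inl a) (.inr b) else 0
  | step (ε : A) (j : ι) (c : V → Pol0 A V W) : IsCol vert c →
      IsCol vert fun a => if vert a = j then ∑ b, mat0 ε (.inl a) (.inl b) * c b else 0

/-- Maximal minors of the matrix of all such vectors. -/
def IsMinor {ι : Type} [DecidableEq ι] (vert : V → ι) (g : Pol0 A V W) : Prop :=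
  ∃ c : V → V → Pol0 A V W, (∀ b, IsCol vert (c b)) ∧ g = (Matrix.of fun a b => c b a).det

/-- The weights are independent: `ξ a` reads the exponent of `x a`, `σ` the polynomial degree. -/
structure WtData (x : V ⊕ W → G) (t : A → G) (ξ : V → G →+ ℤ) (σ : G →+ ℤ) : Prop where
  xx : ∀ a b, ξ a (x (.inl b)) = if a = b then 1 else 0
  xu : ∀ a b, ξ a (x (.inr b)) = 0
  xt : ∀ a ε, ξ a (t ε) = 0
  sx : ∀ p, σ (x p) = 0
  st : ∀ ε, σ (t ε) = -1

/-- Localization of a submodule of a free module at `f`, inside the free module over `Pol`. -/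
noncomputable def locSub {O : Type} (f : Pol0 A V W) (Z : Submodule (Pol0 A V W) (O → Pol0 A V W)) :
    Submodule (Pol A V W) (O → Pol A V W) :=
  Submodule.span (Pol A V W) {y | ∃ z ∈ Z, y = fun o => emb (z o)} ⊔
    Ideal.span {emb f * MvPolynomial.X none - 1} • ⊤

end Fun0

/-- Weight spaces of a free module with basis vectors of weights `c o`. -/
noncomputable def freeW {O P : Type} [AddCommGroup P] [Module ℂ P] (c : O → G)
    (W : G → Submodule ℂ P) (γ : G) : Submodule ℂ (O → P) :=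
  Submodule.pi Set.univ fun o => W (γ - c o)

/-- Action on a free module: derivation on the coefficients plus a constant linear map. -/
noncomputable def freeAct {V O P : Type} [Fintype O] [CommRing P] [Algebra ℂ P]
    (δ : V × V → Derivation ℂ P P) (κ : V × V → O → O → ℂ) (r : V × V) :
    (O → P) →ₗ[ℂ] (O → P) :=
  (δ r).toLinearMap.compLeft O + LinearMap.pi fun o => ∑ o', κ r o o' • LinearMap.proj o'

/-- Module Loc: localization at an invariant function. -/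
def LocStmt : Prop :=
  ∀ (A V W O : Type) [Fintype A] [Fintype V] [Fintype W] [Fintype O] [DecidableEq A]
    [DecidableEq V] [DecidableEq W] [DecidableEq O] (R : V × V → Prop) [DecidablePred R]
    (x : V ⊕ W → G) (t : A → G) (c : O → G) (κ : V × V → O → O → ℂ) (φ : G) (f : Pol0 A V W),
    IsRoots R → f ∈ polW0 x t φ →
    IsRep R (fun a => x (.inl a)) (freeW c (polW0 x t)) (freeAct act0 κ) →
    IsRep R (fun a => x (.inl a)) (freeW c (polW1 x t φ)) (freeAct act κ) →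
    ∀ Z B : Submodule (Pol0 A V W) (O → Pol0 A V W), B ≤ Z →
    IsSub R (freeW c (polW0 x t)) (freeAct act0 κ) (Z.restrictScalars ℂ) →
    IsSub R (freeW c (polW0 x t)) (freeAct act0 κ) (B.restrictScalars ℂ) →
    (∀ r, R r → ∀ m : O → Pol0 A V W, act0 r f • m ∈ B) →
    ∀ Kf : Submodule (Pol0 A V W) (O → Pol0 A V W),
    (∀ z, z ∈ Kf ↔ z ∈ Z ∧ ∃ l : ℕ, f ^ l • z ∈ B) →
    IsSub R (freeW c (polW0 x t)) (freeAct act0 κ) (Kf.restrictScalars ℂ) ∧
    IsSub R (freeW c (polW0 x t)) (freeAct act0 κ)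
      ((Kf ⊔ Ideal.span {f} • Z).restrictScalars ℂ) ∧
    IsSub R (freeW c (polW1 x t φ)) (freeAct act κ) ((locSub f Z).restrictScalars ℂ) ∧
    IsSub R (freeW c (polW1 x t φ)) (freeAct act κ) ((locSub f B).restrictScalars ℂ) ∧
    (∀ γ p, Nonempty (Hu R (fun a => x (.inl a)) (freeW c (polW1 x t φ)) (freeAct act κ)
        ((locSub f Z).restrictScalars ℂ) ((locSub f B).restrictScalars ℂ) γ p ≃ₗ[ℂ]
      Hu R (fun a => x (.inl a)) (freeW c (polW1 x t φ)) (freeAct act κ)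
        ((locSub f Z).restrictScalars ℂ) ((locSub f B).restrictScalars ℂ) (γ + φ) p)) ∧
    ∀ γ, (∀ m : ℕ, Acyc R (fun a => x (.inl a)) (freeW c (polW0 x t)) (freeAct act0 κ)
        (Z.restrictScalars ℂ) ((Kf ⊔ Ideal.span {f} • Z).restrictScalars ℂ) (γ + (m + 1) • φ)) →
      ∀ p, Nonempty (Hu R (fun a => x (.inl a)) (freeW c (polW0 x t)) (freeAct act0 κ)
          (Z.restrictScalars ℂ) (Kf.restrictScalars ℂ) γ p ≃ₗ[ℂ]
        Hu R (fun a => x (.inl a)) (freeW c (polW1 x t φ)) (freeAct act κ)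
          ((locSub f Z).restrictScalars ℂ) ((locSub f B).restrictScalars ℂ) γ p)

/-- Module Cell: vanishing on the generic Schubert cell.  `J` is a proper stable homogeneous ideal
containing all maximal minors. -/
def CellStmt : Prop :=
  ∀ (A V W ι : Type) [Fintype A] [Fintype V] [Fintype W] [DecidableEq A]
    [DecidableEq V] [DecidableEq W] [DecidableEq ι] (R : V × V → Prop) [DecidablePred R]
    (vert : V → ι) (key : V → ℕ) (x : V ⊕ W → G) (t : A → G) (ξ : V → G →+ ℤ) (σ : G →+ ℤ),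
    Function.Injective key → (∀ a b, R (a, b) ↔ vert a = vert b ∧ key b < key a) →
    WtData x t ξ σ → ∀ J : Ideal (Pol0 A V W), J ≠ ⊤ →
    IsSub R (polW0 x t) (fun r => (act0 r).toLinearMap) (J.restrictScalars ℂ) →
    (∀ g, IsMinor vert g → g ∈ J) →
    ∃ (φ : G) (g : Pol0 A V W) (C : ℤ), g ∈ polW0 x t φ ∧ g ∉ J ∧ (∀ r, R r → act0 r g ∈ J) ∧
      (∀ a, ξ a φ ≤ 0) ∧ ∀ γ, (∀ a, ξ a γ ≤ -C) →
        Acyc R (fun a => x (.inl a)) (polW1 x t φ) (fun r => (act r).toLinearMap) ⊤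
          ((J.map emb ⊔ Ideal.span {emb g * MvPolynomial.X none - 1}).restrictScalars ℂ) γ

/-- Module Van: vanishing for modules supported on the unstable locus. -/
def VanStmt : Prop :=
  ∀ (A V W ι O : Type) [Fintype A] [Fintype V] [Fintype W] [Fintype O] [DecidableEq A]
    [DecidableEq V] [DecidableEq W] [DecidableEq ι] [DecidableEq O]
    (R : V × V → Prop) [DecidablePred R]
    (vert : V → ι) (key : V → ℕ) (x : V ⊕ W → G) (t : A → G) (ξ : V → G →+ ℤ) (σ : G →+ ℤ)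
    (c : O → G) (κ : V × V → O → O → ℂ),
    Function.Injective key → (∀ a b, R (a, b) ↔ vert a = vert b ∧ key b < key a) →
    WtData x t ξ σ → IsRep R (fun a => x (.inl a)) (freeW c (polW0 x t)) (freeAct act0 κ) →
    ∀ Z B : Submodule (Pol0 A V W) (O → Pol0 A V W), B ≤ Z →
    IsSub R (freeW c (polW0 x t)) (freeAct act0 κ) (Z.restrictScalars ℂ) →
    IsSub R (freeW c (polW0 x t)) (freeAct act0 κ) (B.restrictScalars ℂ) →
    (∀ g : Pol0 A V W, IsMinor vert g → ∃ l : ℕ, ∀ z ∈ Z, g ^ l • z ∈ B) →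
    ∃ C : ℤ, ∀ γ, (∀ a, ξ a γ ≤ -C) →
      Acyc R (fun a => x (.inl a)) (freeW c (polW0 x t)) (freeAct act0 κ)
        (Z.restrictScalars ℂ) (B.restrictScalars ℂ) γ

/-- Module Rep: the polynomial rings are graded representations. -/
def RepStmt : Prop :=
  ∀ (A V W : Type) [Fintype A] [Fintype V] [Fintype W] [DecidableEq A] [DecidableEq V]
    [DecidableEq W] (R : V × V → Prop) (x : V ⊕ W → G) (t : A → G),
    IsRep R (fun a => x (.inl a)) (polW0 x t) (fun r => (act0 r).toLinearMap) ∧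
    (∀ φ, IsRep R (fun a => x (.inl a)) (polW1 x t φ) (fun r => (act r).toLinearMap)) ∧
    (∀ r (f : Pol0 A V W), act r (emb f) = emb (act0 r f)) ∧
    (∀ φ γ (f : Pol0 A V W), emb f ∈ polW1 x t φ γ ↔ f ∈ polW0 x t γ) ∧
    ∀ (ξ : V → G →+ ℤ) (σ : G →+ ℤ), WtData x t ξ σ →
      (∀ γ, FiniteDimensional ℂ (polW0 x t γ)) ∧
      ∀ l : ℤ, {γ | σ γ = l ∧ polW0 x t γ ≠ ⊥}.Finite

/-- Module Frac: fractions. -/
def FracStmt : Prop :=
  ∀ (A V W O : Type) [Fintype O] (f : Pol0 A V W),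
    (∀ y : O → Pol A V W, ∃ (m : ℕ) (a : O → Pol0 A V W),
      (y - (MvPolynomial.X none : Pol A V W) ^ m • fun o => emb (a o)) ∈
        Ideal.span {emb f * MvPolynomial.X none - 1} • (⊤ : Submodule (Pol A V W) (O → Pol A V W))) ∧
    ∀ (Z : Submodule (Pol0 A V W) (O → Pol0 A V W)) (z : O → Pol0 A V W),
      (fun o => emb (z o)) ∈ locSub f Z ↔ ∃ l : ℕ, f ^ l • z ∈ Z

section Quiver

variable (Q : Quiv) (w v : Fin Q.n → ℕ)

/-- The moment map in the ring without `T`. -/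
noncomputable def mom0 (r : Bas Q v × Bas Q v) : Pol0 (Arr Q) (Bas Q v) (Bas Q w) :=
  ∑ o : Option (Fin Q.ne),
    (mat0 (o, true) * mat0 (o, false) - mat0 (o, false) * mat0 (o, true) :
      Matrix (Bas Q v ⊕ Bas Q w) (Bas Q v ⊕ Bas Q w) _) (.inl r.1) (.inl r.2)

/-- The ideal of `X_d`. -/
noncomputable def lin0 (d : Fin Q.n → ℕ → ℤ) : Ideal (Pol0 (Arr Q) (Bas Q v) (Bas Q w)) :=
  Ideal.span {f | ∃ c, ¬ allowed Q w v d c ∧ f = MvPolynomial.X c}

/-- Weights of the Koszul generators. -/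
noncomputable def relWt (d : Fin Q.n → ℕ → ℤ) (β : Subtype (RelP Q v d)) : G :=
  hb - (xV β.1.1.1 β.1.1.2 - xV β.1.2.1 β.1.2.2)

/-- `d` is increasing. -/
def Incr (d : Fin Q.n → ℕ → ℤ) : Prop := ∀ i, ∀ b < v i, ∀ a < b, d i a ≤ d i b

open Classical in
/-- The character of the fixed part in Borel form. -/
noncomputable def fixB (d : Fin Q.n → ℕ → ℤ) : K :=
  (∏ r : Subtype (RootP Q v), (1 - mon (xV r.1.2.1 r.1.2.2 - xV r.1.1.1 r.1.1.2))) *
    (∏ β : Subtype (RelP Q v d), (1 - mon (relWt Q v d β))) *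
    ∏ c : Co Q w v with allowed Q w v d c,
      (1 - mon (polWt (basWt Q w v) (arrWt Q) 0 (some c)))⁻¹

end Quiver

/-- Module Kos: the Koszul complex as a graded representation, its cycles and boundaries. -/
def KosStmt : Prop :=
  ∀ (Q : Quiv) (w v : Fin Q.n → ℕ) (d : Fin Q.n → ℕ → ℤ), Incr Q v d →
    ∃ (κ : Bas Q v × Bas Q v → Finset (Subtype (RelP Q v d)) → Finset (Subtype (RelP Q v d)) → ℂ)
      (Z B : Bool → Submodule (Pol0 (Arr Q) (Bas Q v) (Bas Q w))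
        (Finset (Subtype (RelP Q v d)) → Pol0 (Arr Q) (Bas Q v) (Bas Q w))),
      actKos (RelP Q v d) (act0 (A := Arr Q) (W := Bas Q w)) = freeAct act0 κ ∧
      actKos (RelP Q v d) (act (A := Arr Q) (W := Bas Q w)) = freeAct act κ ∧
      IsRep (RootP Q v) (fun a => xV a.1 a.2)
        (freeW (fun S => ∑ β ∈ S, relWt Q v d β) (polW0 (basWt Q w v) (arrWt Q)))
        (freeAct act0 κ) ∧
      (∀ φ, IsRep (RootP Q v) (fun a => xV a.1 a.2)
        (freeW (fun S => ∑ β ∈ S, relWt Q v d β) (polW1 (basWt Q w v) (arrWt Q) φ))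
        (freeAct act κ)) ∧
      ∀ p, (Z p).restrictScalars ℂ = kosZ (RelP Q v d) (mom0 Q w v) (lin0 Q w v d) p ∧
        (B p).restrictScalars ℂ = kosB (RelP Q v d) (mom0 Q w v) (lin0 Q w v d) p ∧
        B p ≤ Z p ∧
        IsSub (RootP Q v)
          (freeW (fun S => ∑ β ∈ S, relWt Q v d β) (polW0 (basWt Q w v) (arrWt Q)))
          (freeAct act0 κ) ((Z p).restrictScalars ℂ) ∧
        IsSub (RootP Q v)
          (freeW (fun S => ∑ β ∈ S, relWt Q v d β) (polW0 (basWt Q w v) (arrWt Q)))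
          (freeAct act0 κ) ((B p).restrictScalars ℂ) ∧
        (∀ z ∈ Z p, (∀ a ∈ lin0 Q w v d, a • z ∈ B p) ∧
          ∀ r : Bas Q v × Bas Q v, r.1.1 = r.2.1 → mom0 Q w v r • z ∈ B p) ∧
        ∀ f, (locSub f (Z p)).restrictScalars ℂ =
            kosZ (RelP Q v d) (mom Q w v) (chart Q w v d (emb f)) p ∧
          (locSub f (B p)).restrictScalars ℂ =
            kosB (RelP Q v d) (mom Q w v) (chart Q w v d (emb f)) p

/-- Module Char: Euler characteristic of the Koszul homology and the character formula. -/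
def CharStmt : Prop :=
  ∀ (Q : Quiv) (w v : Fin Q.n → ℕ) (d : Fin Q.n → ℕ → ℤ) (γ : G),
    (∀ p γ', FiniteDimensional ℂ (Qt (extW (relWt Q v d) (polW0 (basWt Q w v) (arrWt Q)))
      (kosZ (RelP Q v d) (mom0 Q w v) (lin0 Q w v d) p)
      (kosB (RelP Q v d) (mom0 Q w v) (lin0 Q w v d) p) γ')) ∧
    ∑ S : Finset (Subtype (RootP Q v)), (-1 : ℚ) ^ S.card *
      ((Module.finrank ℂ (Qt (extW (relWt Q v d) (polW0 (basWt Q w v) (arrWt Q)))
          (kosZ (RelP Q v d) (mom0 Q w v) (lin0 Q w v d) false)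
          (kosB (RelP Q v d) (mom0 Q w v) (lin0 Q w v d) false)
          (γ - ∑ r ∈ S, (xV r.1.2.1 r.1.2.2 - xV r.1.1.1 r.1.1.2))) : ℚ) -
        Module.finrank ℂ (Qt (extW (relWt Q v d) (polW0 (basWt Q w v) (arrWt Q)))
          (kosZ (RelP Q v d) (mom0 Q w v) (lin0 Q w v d) true)
          (kosB (RelP Q v d) (mom0 Q w v) (lin0 Q w v d) true)
          (γ - ∑ r ∈ S, (xV r.1.2.1 r.1.2.2 - xV r.1.1.1 r.1.1.2)))) =
      (fixB Q w v d).coeff γ

/-- Module Orbit: the quiver variety of an extremal weight is one point. -/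
def OrbitStmt : Prop :=
  ∀ Q : Quiv, (∀ e, Q.hd e ≠ Q.tl e) → ∀ w v : Fin Q.n → ℕ, InOrbit Q w (fun i => v i) →
    ∃ x₀, OnZ Q w v 0 x₀ ∧ Stable Q w v x₀ ∧ ∀ x, OnZ Q w v 0 x → Stable Q w v x →
      ∃ g : Matrix (Bas Q v ⊕ Bas Q w) (Bas Q v ⊕ Bas Q w) ℂ, IsUnit g ∧
        (∀ a b : Bas Q v, a.1 ≠ b.1 → g (.inl a) (.inl b) = 0) ∧
        (∀ p (b : Bas Q w), g p (.inr b) = (if p = .inr b then 1 else 0) ∧
          g (.inr b) p = if p = .inr b then 1 else 0) ∧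
        ∀ ε : Arr Q, (Matrix.of fun p q => x (some (ε, p, q))) * g =
          g * Matrix.of fun p q => x₀ (some (ε, p, q))

/-- Module Cut: minors and stability. -/
def CutStmt : Prop :=
  ∀ (Q : Quiv) (w v : Fin Q.n → ℕ),
    (∀ d x, OnZ Q w v d x → Stable Q w v x → ∀ a : Bas Q v, 0 ≤ d a.1 a.2) ∧
    (∀ x, OnZ Q w v 0 x → (Stable Q w v x ↔
      ∃ g, IsMinor (A := Arr Q) (W := Bas Q w) (fun a : Bas Q v => a.1) g ∧
        MvPolynomial.eval x (emb g) ≠ 0)) ∧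
    (OrbitStmt → (∀ e, Q.hd e ≠ Q.tl e) → InOrbit Q w (fun i => v i) → ∃ F φ, Cuts Q w v F φ) ∧
    ∀ F φ, Cuts Q w v F φ → ∀ d, ∀ f, F = emb f → ∀ g,
      IsMinor (A := Arr Q) (W := Bas Q w) (fun a : Bas Q v => a.1) g →
      g ∈ (lin0 Q w v d ⊔ Ideal.span ({f} ∪
        {y | ∃ r : Bas Q v × Bas Q v, r.1.1 = r.2.1 ∧ y = mom0 Q w v r})).radical

/-- Module Sym: from the parabolic form summed over all types to the Borel form summed over
increasing types. -/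
def SymStmt : Prop :=
  ∀ (Q : Quiv) (w v : Fin Q.n → ℕ) (θ : Fin Q.n → ℤ) (D : Fin Q.n →₀ ℕ),
    ct (mon (∑ i : Fin Q.n, ∑ a ∈ range (v i), θ i • xV i a) *
        ∑ d ∈ Fintype.piFinset (fun i => piAntidiag (range (v i)) (D i)),
          integrand Q w v (fun i a => d i a)) =
      (∏ i, ((v i).factorial : K)) * ∑ d ∈ types Q v D,
        ct (mon (∑ i : Fin Q.n, ∑ a ∈ range (v i), θ i • xV i a) *
          (moving Q w v (fun i a => d i a) * fixB Q w v fun i a => d i a))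

end Pool.Agent.MP_8be872_ag.H56
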