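import Mathlib

/-!
Definitions for the vertex function of a zero-dimensional Nakajima quiver variety, written through
localization with respect to the torus scaling the source of the quasimaps.
-/

namespace Pool.Agent.MP_8be872_ag.H56

open Finset

/-- Names of the variables. -/
abbrev Var := ℕ ×ₗ ℕ ×ₗ ℕ

/-- The variable `q`. -/
def vq : Var := toLex (0, toLex (0, 0))
/-- The variable `s`, a square root of `ħ`. -/
def vs : Var := toLex (0, toLex (0, 1))
/-- The Chern root `x_{i,a}` of `V_i`. -/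
def vx (i a : ℕ) : Var := toLex (1, toLex (i, a))
/-- The framing parameter `u_{i,b}` of `W_i`. -/
def vu (i b : ℕ) : Var := toLex (2, toLex (i, b))
/-- The torus parameter `t_e` of the arrow `e`. -/
def vt (e : ℕ) : Var := toLex (3, toLex (e, 0))

/-- Weights: exponent vectors of Laurent monomials in the variables. -/
abbrev Wt := Var →₀ ℤ

/-- The field of formal series in which rational functions are expanded: first in powers of `q`,
then in powers of `s`. -/
abbrev K := HahnSeries (Lex Wt) ℚ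

/-- The weight of one variable. -/
noncomputable def wt (z : Var) : Wt := Finsupp.single z 1

/-- The monomial of a weight. -/
noncomputable def mon (γ : Wt) : K := HahnSeries.single (toLex γ) 1

/-- `q`. -/
noncomputable def qq : K := mon (wt vq)
/-- `s = ħ^(1/2)`. -/
noncomputable def ss : K := mon (wt vs)
/-- `ħ`. -/
noncomputable def hb : K := ss ^ 2

/-- `F = O(q^J)`. -/
def Small (J : ℤ) (F : K) : Prop := ∀ γ : Wt, γ vq < J → F.coeff (toLex γ) = 0

/-- Constant term in the Chern roots `x_{i,a}`, `a < v i`. -/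
noncomputable def ct {n : ℕ} (v : Fin n → ℕ) (F : K) : K := by
  classical exact
  ⟨fun γ => if ∀ (i : Fin n) (a : Fin (v i)), ofLex γ (vx i a) = 0 then F.coeff γ else 0,
    F.isPWO_support.mono fun γ h h0 => h (by simp [h0])⟩

/-- Alternating exterior algebra of the dual of `H^•(P^1, O(δ)) ⊗ γ`: the weights of `H^0` are
`γ q^j`, `0 ≤ j ≤ δ`, those of `H^1` are `γ q^j`, `δ < j < 0`. -/
noncomputable def lam (γ : Wt) (δ : ℤ) : K :=
  (∏ j ∈ Icc 0 δ, (1 - mon (-(γ + j • wt vq)))) /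
    ∏ j ∈ Icc (δ + 1) (-1), (1 - mon (-(γ + j • wt vq)))

/-- Contribution to the symmetrized virtual structure sheaf of a line bundle of weight `γ` and
degree `δ` in the polarization together with its symplectic dual, of weight `ħ⁻¹ γ⁻¹` and degree
`-δ`.  The monomial is the square root of (virtual canonical class) times (ratio of the fibres of
the polarization at `0` and `∞`), that is of
`(γ^(2δ) ħ^(δ-1) q^(δ^2))⁻¹ * q^δ`. -/
noncomputable def pair (γ : Wt) (δ : ℤ) : K :=
  mon (-δ • γ + (1 - δ) • wt vs - (δ * (δ - 1) / 2) • wt vq) /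
    (lam γ δ * lam (-γ - 2 • wt vs) (-δ))

/-- A finite quiver: vertices `Fin n`, arrows `Fin m`, head and tail maps. -/
structure Qv where
  n : ℕ
  m : ℕ
  hd : Fin m → Fin n
  tl : Fin m → Fin n

namespace Qv

variable (Q : Qv)

/-- The localization integrand of the component of fixed quasimaps on which
`𝒱_i = ⊕_a O(d i a)`: polarization `⊕_e Hom(V_{t e}, V_{h e}) ⊕ ⊕_i Hom(W_i, V_i) - ⊕_i End(V_i)`;
the zero weights of the Lie algebra of the maximal torus are left out. -/
noncomputable def integrand (v w : Fin Q.n → ℕ) (d : Fin Q.n → ℕ → ℤ) : K :=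
  (∏ e : Fin Q.m, ∏ a : Fin (v (Q.hd e)), ∏ b : Fin (v (Q.tl e)),
      pair (wt (vx (Q.hd e) a) - wt (vx (Q.tl e) b) + wt (vt e) - wt vs)
        (d (Q.hd e) a - d (Q.tl e) b)) *
    (∏ i : Fin Q.n, ∏ a : Fin (v i), ∏ b : Fin (w i),
      pair (wt (vx i a) - wt (vu i b) - wt vs) (d i a)) *
    ∏ i : Fin Q.n, ∏ a : Fin (v i), ∏ b : Fin (v i),
      if a = b then (1 - hb) / ss else (pair (wt (vx i a) - wt (vx i b)) (d i a - d i b))⁻¹

/-- Weyl integration of the integrand twisted by `⊗_i (det V_i)^(θ i)`. -/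
noncomputable def twisted (v w : Fin Q.n → ℕ) (θ : Fin Q.n → ℤ) (d : Fin Q.n → ℕ → ℤ) : K :=
  ct v (Q.integrand v w d * mon (∑ i : Fin Q.n, ∑ a : Fin (v i), θ i • wt (vx i a))) /
    ∏ i : Fin Q.n, ((v i).factorial : K)

/-- Nonnegative splitting types `d` with `∑_a d i a = D i`. -/
noncomputable def types (v : Fin Q.n → ℕ) (D : Fin Q.n →₀ ℕ) : Finset (Fin Q.n → ℕ → ℕ) :=
  Fintype.piFinset fun i => piAntidiag (range (v i)) (D i)

/-- `V` is the vertex function for the stability `(1, ..., 1)`: for large `k` the twist by the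
`k`-th power of `L = ⊗ det V_i` computes Euler characteristics on the stable locus, `L` is pulled
back from the point `M`, and `twisted k 0 = χ(M, L^k)`.  Types with a negative entry contribute
nothing, and the coefficient of `z^D` is the `q`-adic limit of the normalized sum. -/
def IsVertex (v w : Fin Q.n → ℕ) (V : MvPowerSeries (Fin Q.n) K) : Prop :=
  (∃ ξ : Wt, ξ vq = 0 ∧ ∀ᶠ k : ℕ in Filter.atTop, Q.twisted v w (fun _ => k) 0 = mon (k • ξ)) ∧
  (∀ d : Fin Q.n → ℕ → ℤ, (∃ (i : Fin Q.n) (a : Fin (v i)), d i a < 0) → ∀ J : ℤ,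
    ∀ᶠ k : ℕ in Filter.atTop,
      Small J (Q.twisted v w (fun _ => k) d / Q.twisted v w (fun _ => k) 0)) ∧
  ∀ (D : Fin Q.n →₀ ℕ) (J : ℤ), ∀ᶠ k : ℕ in Filter.atTop,
    Small J ((∑ d ∈ Q.types v D, Q.twisted v w (fun _ => k) fun i a => d i a) /
      Q.twisted v w (fun _ => k) 0 - MvPowerSeries.coeff D V)

/-- The invariant form `(α_i, β)` for `β = ∑ β j α_j` in the root lattice. -/
def cart (i : Fin Q.n) (β : Fin Q.n → ℤ) : ℤ :=
  2 * β i - (∑ e : Fin Q.m, if Q.hd e = i then β (Q.tl e) else 0) -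
    ∑ e : Fin Q.m, if Q.tl e = i then β (Q.hd e) else 0

/-- The simple reflection `s_i` on the root lattice. -/
def refl (i : Fin Q.n) (β : Fin Q.n → ℤ) : Fin Q.n → ℤ := β - Pi.single i (Q.cart i β)

/-- Real roots: the Weyl group orbit of the simple roots. -/
inductive RealRoot : (Fin Q.n → ℤ) → Prop
  | simple (i : Fin Q.n) : RealRoot (Pi.single i 1)
  | refl (i : Fin Q.n) (β : Fin Q.n → ℤ) : RealRoot β → RealRoot (Q.refl i β)

/-- `(α, μ)` for `μ = λ - ∑ v i α_i`, `λ = ∑ w i ϖ_i`. -/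
def pairing (w : Fin Q.n → ℕ) (v α : Fin Q.n → ℤ) : ℤ := ∑ i, α i * (w i - Q.cart i v)

/-- `μ = λ - ∑ v i α_i` lies in the Weyl group orbit of `λ`
(`s_i μ = μ - (α_i, μ) α_i`). -/
inductive Extremal (w : Fin Q.n → ℕ) : (Fin Q.n → ℤ) → Prop
  | top : Extremal w 0
  | refl (i : Fin Q.n) (v : Fin Q.n → ℤ) :
      Extremal w v → Extremal w (v + Pi.single i (w i - Q.cart i v))

/-- The exponent `a_i`. -/
def aexp (v w : Fin Q.n → ℕ) (i : Fin Q.n) : ℤ :=
  (∑ e : Fin Q.m, if Q.hd e = i then (v (Q.tl e) : ℤ) else 0) -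
    (∑ e : Fin Q.m, if Q.tl e = i then (v (Q.hd e) : ℤ) else 0) + w i

/-- The exponent `b_i`. -/
def bexp (v : Fin Q.n → ℕ) (i : Fin Q.n) : ℤ :=
  v i - ∑ e : Fin Q.m, if Q.tl e = i then (v (Q.hd e) : ℤ) else 0

/-- `c * e^α` as a power series in the `z_i`, where `e^(α_i) = z_i (q/ħ)^(b_i)`. -/
noncomputable def eroot (v : Fin Q.n → ℕ) (c : K) (α : Fin Q.n →₀ ℕ) :
    MvPowerSeries (Fin Q.n) K :=
  MvPowerSeries.monomial α (c * ∏ i, ((qq / hb) ^ Q.bexp v i) ^ α i)

end Qv

/-- `Φ(x) = ∏_{i ≥ 0} (1 - x q^i)` through Euler's expansion in powers of `x`. -/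
noncomputable def Phi : PowerSeries K :=
  PowerSeries.mk fun r => (-1) ^ r * qq ^ r.choose 2 / ∏ j ∈ range r, (1 - qq ^ (j + 1))

end Pool.Agent.MP_8be872_ag.H56
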