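import Pool.Agent.MP_8be872_ag.H56.Rep
import Pool.Agent.MP_8be872_ag.H38.Hahn

/-! Comparison of the cohomology on the chart with the character of the fixed part. -/

namespace Pool.Agent.MP_8be872_ag.H56

open Finset H38 MvPolynomial

variable (Q : Quiv) (w v : Fin Q.n → ℕ)

/-- exponent of a Chern root -/
def xi (a : Bas Q v) : G →+ ℤ := co (3 * Nat.pair a.1 a.2 + 4)

lemma wtData : WtData (basWt Q w v) (arrWt Q) (xi Q v) (co 1) where
  xx a b := by
    simp only [xi, basWt, xV, co_gen]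
    refine if_congr ⟨fun h => ?_, fun h => by rw [h]⟩ rfl rfl
    have h' : Nat.pair b.1 b.2 = Nat.pair a.1 a.2 := by omega
    obtain ⟨h1, h2⟩ := Nat.pair_eq_pair.mp h'
    obtain ⟨i, a⟩ := a
    obtain ⟨j, b⟩ := b
    obtain rfl : j = i := Fin.ext h1
    obtain rfl : b = a := Fin.ext h2
    rfl
  xu a b := by
    simp only [xi, basWt, uF, co_gen]
    rw [if_neg (by omega)]
  xt a ε := by
    obtain ⟨_ | e, _ | _⟩ := ε <;>
      simp only [xi, arrWt, tE, tau, map_sub, map_neg, co_gen] <;>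
      (repeat rw [if_neg (by omega)]) <;> rfl
  sx p := by
    rcases p with a | a <;> simp only [basWt, xV, uF, co_gen] <;> rw [if_neg (by omega)]
  st ε := by
    obtain ⟨_ | e, _ | _⟩ := ε <;>
      simp only [arrWt, tE, tau, map_sub, map_neg, co_gen] <;>
      (repeat rw [if_neg (by omega)]) <;> rfl

lemma rootP_iff (a b : Bas Q v) :
    RootP Q v (a, b) ↔ a.1 = b.1 ∧ Nat.pair b.1 b.2 < Nat.pair a.1 a.2 := by
  refine and_congr_right fun h => ?_
  have hm : StrictMono (Nat.pair a.1) := fun _ _ => Nat.pair_lt_pair_right _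
  have h' : (b.1 : ℕ) = a.1 := by rw [show a.1 = b.1 from h]
  rw [h', hm.lt_iff_lt]

lemma key_inj : Function.Injective fun a : Bas Q v => Nat.pair a.1 a.2 := by
  rintro ⟨i, a⟩ ⟨j, b⟩ h
  obtain ⟨h1, h2⟩ := Nat.pair_eq_pair.mp h
  obtain rfl : i = j := Fin.ext h1
  obtain rfl : a = b := Fin.ext h2
  rfl

lemma isRoots : IsRoots (RootP Q v) :=
  ⟨fun _ h => lt_irrefl _ h.2, fun _ _ _ h h' => ⟨h.1.trans h'.1, h'.2.trans h.2⟩⟩

lemma exists_emb {A V W : Type} {F : Pol A V W} (h : none ∉ F.vars) : ∃ f, F = emb f := by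
  classical
  obtain ⟨f, hf⟩ := exists_rename_eq_of_vars_subset_range F some (Option.some_injective _) (by
    rintro (_ | c) hc
    · exact absurd hc h
    · exact ⟨c, rfl⟩)
  exact ⟨f, hf.symm⟩

/-- elements killed by a power of `f` modulo `B` -/
def satSub {P M : Type} [CommRing P] [AddCommGroup M] [Module P M] (f : P) (Z B : Submodule P M) :
    Submodule P M where
  carrier := {z | z ∈ Z ∧ ∃ l : ℕ, f ^ l • z ∈ B}
  zero_mem' := ⟨zero_mem _, 0, by simp⟩
  add_mem' := by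
    rintro a b ⟨ha, l, hl⟩ ⟨hb, m, hm⟩
    refine ⟨add_mem ha hb, l + m, ?_⟩
    rw [smul_add]
    refine add_mem ?_ ?_
    · rw [add_comm, pow_add, mul_smul]; exact B.smul_mem _ hl
    · rw [pow_add, mul_smul]; exact B.smul_mem _ hm
  smul_mem' := by
    rintro c a ⟨ha, l, hl⟩
    exact ⟨Z.smul_mem _ ha, l, by rw [smul_comm]; exact B.smul_mem _ hl⟩

lemma satSub_pow {P M : Type} [CommRing P] [AddCommGroup M] [Module P M] [IsNoetherian P M]
    (f : P) (Z B : Submodule P M) : ∃ l : ℕ, ∀ z ∈ satSub f Z B, f ^ l • z ∈ B := by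
  obtain ⟨s, hs⟩ := IsNoetherian.noetherian (satSub f Z B)
  have : ∀ z ∈ s, ∃ l : ℕ, f ^ l • z ∈ B := fun z hz =>
    (show z ∈ satSub f Z B from hs ▸ Submodule.subset_span hz).2
  choose! l hl using this
  refine ⟨s.sup l, fun z hz => ?_⟩
  rw [← hs] at hz
  induction hz using Submodule.span_induction with
  | mem z hz =>
    obtain ⟨k, hk⟩ := Nat.exists_eq_add_of_le (le_sup (f := l) hz)
    rw [hk, add_comm, pow_add, mul_smul]
    exact B.smul_mem _ (hl z hz)
  | zero => simp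
  | add a b _ _ ha hb => rw [smul_add]; exact add_mem ha hb
  | smul c a _ ha => rw [smul_comm]; exact B.smul_mem _ ha

/-- the ideal of scalars sending `Z` into `B` -/
def annI {P M : Type} [CommRing P] [AddCommGroup M] [Module P M] (Z B : Submodule P M) :
    Ideal P where
  carrier := {a | ∀ z ∈ Z, a • z ∈ B}
  zero_mem' := fun z _ => by simp
  add_mem' := fun ha hb z hz => by rw [add_smul]; exact add_mem (ha z hz) (hb z hz)
  smul_mem' := fun c a ha z hz => by rw [smul_eq_mul, mul_smul]; exact B.smul_mem _ (ha z hz)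

theorem fix_main (hce : CEStmt) (hloc : LocStmt) (hvan : VanStmt) (hkos : KosStmt)
    (hchar : CharStmt) (hcut : CutStmt) (d : Fin Q.n → ℕ → ℤ) (hd : Incr Q v d)
    (F : Pol (Arr Q) (Bas Q v) (Bas Q w)) (φ : G) (hF : Cuts Q w v F φ) :
    (∀ γ p p', Nonempty (Hfix Q w v d F φ γ p p' ≃ₗ[ℂ] Hfix Q w v d F φ (γ + φ) p p')) ∧
    ∃ C : ℤ, ∀ γ, (∀ a, xi Q v a γ ≤ -C) →
      (∀ p p', FiniteDimensional ℂ (Hfix Q w v d F φ γ p p')) ∧
      (chi Q w v d F φ γ : ℚ) = (fixB Q w v d).coeff γ := by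
  obtain ⟨f, rfl⟩ := exists_emb hF.1
  obtain ⟨κ, Z, B, ha0, ha1, hr0, hr1, hZB⟩ := hkos Q w v d hd
  have hf : f ∈ polW0 (basWt Q w v) (arrWt Q) φ := (emb_mem _ _ φ φ f).mp hF.2.1
  have hinv : ∀ r, RootP Q v r → act0 r f = 0 := fun r hr => by
    have := hF.2.2.2.1 r hr.1 (fun h => by
      have h2 := hr.2
      rw [h] at h2
      exact lt_irrefl _ h2)
    rw [act_emb] at this
    exact rename_injective _ (Option.some_injective _) (this.trans (map_zero _).symm)
  have hL := fun p => hloc _ _ _ _ (RootP Q v) (basWt Q w v) (arrWt Q)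
    (fun S => ∑ β ∈ S, relWt Q v d β) κ φ f (isRoots Q v) hf hr0 (hr1 φ) (Z p) (B p)
    (hZB p).2.2.1 (hZB p).2.2.2.1 (hZB p).2.2.2.2.1
    (fun r hr m => by rw [hinv r hr, zero_smul]; exact zero_mem _) (satSub f (Z p) (B p))
    (fun _ => Iff.rfl)
  have hV := fun Z' B' => hvan _ _ _ _ _ (RootP Q v) (fun a : Bas Q v => a.1)
    (fun a => Nat.pair a.1 a.2) (basWt Q w v) (arrWt Q) (xi Q v) (co 1)
    (fun S => ∑ β ∈ S, relWt Q v d β) κ (key_inj Q v) (rootP_iff Q v) (wtData Q w v) hr0 Z' B'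
  have hrad := (hcut Q w v).2.2.2 _ φ hF d f rfl
  have hBK : ∀ p, B p ≤ satSub f (Z p) (B p) := fun p z hz =>
    ⟨(hZB p).2.2.1 hz, 0, by simpa using hz⟩
  have hKZ : ∀ p, satSub f (Z p) (B p) ≤ Z p := fun p z hz => hz.1
  have hmin : ∀ p (Z' B' : Submodule _ _), Z' ≤ Z p → B p ≤ B' → f ∈ (annI Z' B').radical →
      ∀ g : Pol0 (Arr Q) (Bas Q v) (Bas Q w), IsMinor (fun a : Bas Q v => a.1) g →
        ∃ l : ℕ, ∀ z ∈ Z', g ^ l • z ∈ B' := by
    intro p Z' B' h1 h2 h3 g hg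
    have : g ∈ (annI Z' B').radical := by
      refine (Ideal.radical_le_radical_iff.mpr ?_) (hrad g hg)
      refine sup_le (fun a ha => Ideal.le_radical fun z hz =>
        h2 (((hZB p).2.2.2.2.2.1 z (h1 hz)).1 a ha)) (Ideal.span_le.mpr ?_)
      rintro y (rfl | ⟨r, hr, rfl⟩)
      · exact h3
      · exact Ideal.le_radical fun z hz => h2 (((hZB p).2.2.2.2.2.1 z (h1 hz)).2 r hr)
    exact this
  have hC1 := fun p => hV (Z p) (satSub f (Z p) (B p) ⊔ Ideal.span {f} • Z p)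
    (sup_le (hKZ p) Submodule.smul_le_right) (hZB p).2.2.2.1 (hL p).2.1
    (hmin p _ _ le_rfl ((hBK p).trans le_sup_left) (Ideal.le_radical fun z hz =>
      Submodule.mem_sup_right (Submodule.smul_mem_smul (Ideal.mem_span_singleton_self f) hz)))
  have hC2 := fun p => hV (satSub f (Z p) (B p)) (B p) (hBK p) (hL p).1 (hZB p).2.2.2.2.1
    (hmin p _ _ (hKZ p) le_rfl (satSub_pow f (Z p) (B p)))
  choose C1 hC1 using hC1
  choose C2 hC2 using hC2
  have hfix : ∀ γ p p', Hfix Q w v d (emb f) φ γ p p' =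
      Hu (RootP Q v) (fun a => basWt Q w v (.inl a))
        (freeW (fun S => ∑ β ∈ S, relWt Q v d β) (polW1 (basWt Q w v) (arrWt Q) φ))
        (actKos (RelP Q v d) act) (kosZ (RelP Q v d) (mom Q w v) (chart Q w v d (emb f)) p)
        (kosB (RelP Q v d) (mom Q w v) (chart Q w v d (emb f)) p) γ p' := fun _ _ _ => rfl
  refine ⟨fun γ p p' => ?_, ⟨max (max (C1 false) (C1 true)) (max (C2 false) (C2 true)),
    fun γ hγ => ?_⟩⟩
  · have := (hL p).2.2.2.2.1 γ p'
    rw [((hZB p).2.2.2.2.2.2 f).1, ((hZB p).2.2.2.2.2.2 f).2, ← ha1] at this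
    exact this
  · have hce0 := hce _ (RootP Q v) _ (isRoots Q v) _ _ _ hr0
    have hiso : ∀ p p', Nonempty (Hu (RootP Q v) (fun a => xV a.1 a.2)
        (freeW (fun S => ∑ β ∈ S, relWt Q v d β) (polW0 (basWt Q w v) (arrWt Q)))
        (freeAct act0 κ) ((Z p).restrictScalars ℂ) ((B p).restrictScalars ℂ) γ p' ≃ₗ[ℂ]
        Hfix Q w v d (emb f) φ γ p p') := by
      intro p p'
      have hC : C1 p ≤ max (max (C1 false) (C1 true)) (max (C2 false) (C2 true)) ∧
          C2 p ≤ max (max (C1 false) (C1 true)) (max (C2 false) (C2 true)) := by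
        cases p <;> simp
      obtain ⟨e1⟩ := (hce0.2.2.2.1 _ _ _ (hZB p).2.2.2.1 (hL p).1 (hZB p).2.2.2.2.1 (hBK p)
        (hKZ p) γ).1 (hC2 p γ fun a => (hγ a).trans (neg_le_neg hC.2)) p'
      have e2 := (hL p).2.2.2.2.2 γ (fun m => hC1 p _ fun a => by
        have h1 : xi Q v a φ = -1 := hF.2.2.1 a
        have h2 := hγ a
        rw [map_add, map_nsmul, h1]
        simp only [nsmul_eq_mul, Nat.cast_add, Nat.cast_one, mul_neg, mul_one]
        omega) p'
      rw [((hZB p).2.2.2.2.2.2 f).1, ((hZB p).2.2.2.2.2.2 f).2, ← ha1] at e2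
      obtain ⟨e2⟩ := e2
      exact ⟨e1.trans e2⟩
    have hch := hchar Q w v d γ
    have hE := fun p => hce0.2.2.2.2.2.1 _ _ (hZB p).2.2.2.1 (hZB p).2.2.2.2.1 (hZB p).2.2.1 γ
      (by rw [(hZB p).1, (hZB p).2.1]; exact hch.1 p)
    refine ⟨fun p p' => ?_, ?_⟩
    · obtain ⟨e⟩ := hiso p p'
      haveI := (hE p).1 p'
      exact e.finiteDimensional
    · have hr := fun p p' => (hiso p p').some.finrank_eq
      have h0 := (hE false).2
      have h1 := (hE true).2
      rw [hr, hr, (hZB _).1, (hZB _).2.1] at h0 h1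
      rw [← hch.2, chi]
      simp only [Fintype.sum_bool, mul_sub, sum_sub_distrib]
      have h0' := congrArg (Int.cast : ℤ → ℚ) h0
      have h1' := congrArg (Int.cast : ℤ → ℚ) h1
      push_cast at h0' h1' ⊢
      have e : extW (relWt Q v d) (polW0 (basWt Q w v) (arrWt Q)) =
        freeW (fun S => ∑ β ∈ S, relWt Q v d β) (polW0 (basWt Q w v) (arrWt Q)) := rfl
      rw [e]
      linear_combination h0' - h1'

end Pool.Agent.MP_8be872_ag.H56
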