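import Pool.Agent.MP_8be872_ag.H56.GSpec

/-! Fractions. -/

namespace Pool.Agent.MP_8be872_ag.H56

open Finset H38 MvPolynomial

variable {A V W O : Type}

lemma mem_smul_top {P : Type} [CommRing P] (u : P) (y : O → P) :
    y ∈ Ideal.span {u} • (⊤ : Submodule P (O → P)) ↔ ∀ o, y o ∈ Ideal.span {u} := by
  rw [Submodule.ideal_span_singleton_smul, Submodule.mem_smul_pointwise_iff_exists]
  constructor
  · rintro ⟨z, -, rfl⟩ o
    exact Ideal.mem_span_singleton'.mpr ⟨z o, by simp [mul_comm]⟩
  · intro h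
    choose z hz using fun o => Ideal.mem_span_singleton'.mp (h o)
    exact ⟨z, trivial, funext fun o => by simp [← hz o, mul_comm]⟩

lemma pow_sub_mem (f : Pol0 A V W) (k : ℕ) : (emb f * X none) ^ k - 1 ∈
    Ideal.span {(emb f * X none - 1 : Pol A V W)} :=
  Ideal.mem_span_singleton.mpr (by
    have := sub_dvd_pow_sub_pow (emb f * X none : Pol A V W) 1 k
    rwa [one_pow] at this)

lemma frac_up (f : Pol0 A V W) {y : Pol A V W} {m : ℕ} {a : Pol0 A V W}
    (h : y - X none ^ m * emb a ∈ Ideal.span {(emb f * X none - 1 : Pol A V W)}) (k : ℕ) :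
    y - X none ^ (m + k) * emb (f ^ k * a) ∈ Ideal.span {(emb f * X none - 1 : Pol A V W)} := by
  have := sub_mem h (Ideal.mul_mem_left _ (X none ^ m * emb a) (pow_sub_mem f k))
  convert this using 1
  simp only [map_mul, map_pow]
  ring

lemma frac_one (f : Pol0 A V W) (y : Pol A V W) : ∃ (m : ℕ) (a : Pol0 A V W),
    y - X none ^ m * emb a ∈ Ideal.span {(emb f * X none - 1 : Pol A V W)} := by
  induction y using MvPolynomial.induction_on with
  | C a => exact ⟨0, C a, by simp [emb]⟩
  | add p q hp hq =>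
    obtain ⟨m, a, ha⟩ := hp
    obtain ⟨n, b, hb⟩ := hq
    refine ⟨m + n, f ^ n * a + f ^ m * b, ?_⟩
    have := add_mem (frac_up f ha n) (frac_up f hb m)
    convert this using 1
    rw [map_add, add_comm n m]
    ring
  | mul_X p c hp =>
    obtain ⟨m, a, ha⟩ := hp
    rcases c with _ | c
    · refine ⟨m + 1, a, ?_⟩
      convert Ideal.mul_mem_right (X none) _ ha using 1
      ring
    · refine ⟨m, a * X c, ?_⟩
      convert Ideal.mul_mem_right (X (some c)) _ ha using 1
      simp only [map_mul, emb, rename_X]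
      ring

lemma emb_ker (f b : Pol0 A V W)
    (h : emb b ∈ Ideal.span {(emb f * X none - 1 : Pol A V W)}) : ∃ l : ℕ, f ^ l * b = 0 := by
  let π : Pol A V W →ₐ[ℂ] Localization.Away f := aeval fun c => match c with
    | none => IsLocalization.Away.invSelf f
    | some c => algebraMap (Pol0 A V W) _ (X c)
  have hπ : ∀ a, π (emb a) = algebraMap (Pol0 A V W) _ a := fun a => by
    have : π.comp emb = IsScalarTower.toAlgHom ℂ (Pol0 A V W) (Localization.Away f) := by
      ext c
      simp [π, emb]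
    exact congrArg (fun g : Pol0 A V W →ₐ[ℂ] Localization.Away f => g a) this
  obtain ⟨c, hc⟩ := Ideal.mem_span_singleton'.mp h
  have := congrArg π hc
  rw [map_mul, map_sub, map_mul, hπ, hπ, map_one] at this
  have h1 : π (X none) = IsLocalization.Away.invSelf f := by simp [π]
  rw [h1, IsLocalization.Away.mul_invSelf, sub_self, mul_zero] at this
  obtain ⟨⟨_, l, rfl⟩, hl⟩ := (IsLocalization.map_eq_zero_iff (Submonoid.powers f) _ b).mp this.symm
  exact ⟨l, hl⟩

lemma frac_vec [Fintype O] (f : Pol0 A V W) (y : O → Pol A V W) :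
    ∃ (m : ℕ) (a : O → Pol0 A V W), ∀ o,
      y o - X none ^ m * emb (a o) ∈ Ideal.span {(emb f * X none - 1 : Pol A V W)} := by
  choose m a h using fun o => frac_one f (y o)
  refine ⟨∑ o, m o, fun o => f ^ (∑ o, m o - m o) * a o, fun o => ?_⟩
  have := frac_up f (h o) (∑ o, m o - m o)
  rwa [Nat.add_sub_cancel' (single_le_sum (fun _ _ => Nat.zero_le _) (mem_univ o))] at this

theorem frac : FracStmt := by
  intro A V W O _ f
  refine ⟨fun y => ?_, fun Z z => ⟨fun h => ?_, fun ⟨l, hl⟩ => ?_⟩⟩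
  · obtain ⟨m, a, h⟩ := frac_vec f y
    exact ⟨m, a, (mem_smul_top _ _).mpr h⟩
  · have key : ∀ y ∈ locSub f Z, ∃ (m : ℕ) (a : O → Pol0 A V W), a ∈ Z ∧ ∀ o,
        y o - X none ^ m * emb (a o) ∈ Ideal.span {(emb f * X none - 1 : Pol A V W)} := by
      have add : ∀ y y' : O → Pol A V W, (∃ (m : ℕ) (a : O → Pol0 A V W), a ∈ Z ∧ ∀ o,
          y o - X none ^ m * emb (a o) ∈ Ideal.span {(emb f * X none - 1 : Pol A V W)}) →
          (∃ (m : ℕ) (a : O → Pol0 A V W), a ∈ Z ∧ ∀ o,
          y' o - X none ^ m * emb (a o) ∈ Ideal.span {(emb f * X none - 1 : Pol A V W)}) →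
          ∃ (m : ℕ) (a : O → Pol0 A V W), a ∈ Z ∧ ∀ o, (y + y') o - X none ^ m * emb (a o) ∈
            Ideal.span {(emb f * X none - 1 : Pol A V W)} := by
        rintro y y' ⟨m, a, ha, h⟩ ⟨n, b, hb, h'⟩
        refine ⟨m + n, f ^ n • a + f ^ m • b, add_mem (Z.smul_mem _ ha) (Z.smul_mem _ hb),
          fun o => ?_⟩
        convert add_mem (frac_up f (h o) n) (frac_up f (h' o) m) using 1
        simp only [Pi.add_apply, Pi.smul_apply, smul_eq_mul, map_add, add_comm n m]
        ring
      intro y hy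
      obtain ⟨y1, h1, y2, h2, rfl⟩ := Submodule.mem_sup.mp hy
      refine add _ _ ?_ ⟨0, 0, zero_mem _, fun o => by simpa using (mem_smul_top _ _).mp h2 o⟩
      clear hy
      induction h1 using Submodule.span_induction with
      | mem y hy =>
        obtain ⟨z, hz, rfl⟩ := hy
        exact ⟨0, z, hz, fun o => by simp⟩
      | zero => exact ⟨0, 0, zero_mem _, fun o => by simp⟩
      | add y y' _ _ hy hy' => exact add _ _ hy hy'
      | smul c y _ hy =>
        obtain ⟨m, a, ha, h⟩ := hy
        obtain ⟨n, b, hb⟩ := frac_one f c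
        refine ⟨n + m, b • a, Z.smul_mem _ ha, fun o => ?_⟩
        convert add_mem (Ideal.mul_mem_left _ c (h o))
          (Ideal.mul_mem_right (X none ^ m * emb (a o)) _ hb) using 1
        simp only [Pi.smul_apply, smul_eq_mul, map_mul]
        ring
    obtain ⟨m, a, ha, h⟩ := key _ h
    have : ∀ o, ∃ l : ℕ, f ^ l * (f ^ m * z o - a o) = 0 := fun o => by
      refine emb_ker f _ ?_
      convert add_mem (Ideal.mul_mem_left _ (emb f ^ m) (h o))
        (Ideal.mul_mem_right (emb (a o)) _ (pow_sub_mem f m)) using 1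
      simp only [map_sub, map_mul, map_pow]
      ring
    choose l hl using this
    refine ⟨∑ o, l o + m, ?_⟩
    convert Z.smul_mem (f ^ ∑ o, l o) ha using 1
    funext o
    obtain ⟨k, hk⟩ := Nat.exists_eq_add_of_le
      (single_le_sum (f := l) (fun _ _ => Nat.zero_le _) (mem_univ o))
    simp only [Pi.smul_apply, smul_eq_mul, hk]
    linear_combination f ^ k * hl o
  · have h1 : (fun o => emb ((f ^ l • z) o)) ∈ locSub f Z :=
      Submodule.mem_sup_left (Submodule.subset_span ⟨_, hl, rfl⟩)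
    have h2 : (fun o => ((emb f * X none) ^ l - 1) * emb (z o)) ∈ locSub f Z :=
      Submodule.mem_sup_right ((mem_smul_top _ _).mpr fun o =>
        Ideal.mul_mem_right _ _ (pow_sub_mem f l))
    convert sub_mem (Submodule.smul_mem _ ((X none : Pol A V W) ^ l) h1) h2 using 1
    funext o
    simp only [Pi.sub_apply, Pi.smul_apply, smul_eq_mul, map_mul, map_pow]
    ring

end Pool.Agent.MP_8be872_ag.H56
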