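import Pool.Agent.MP_8be872_ag.H56.FinC
import Pool.Agent.MP_8be872_ag.H56.Frac
import Pool.Agent.MP_8be872_ag.H29.CE
import Pool.Agent.MP_8be872_ag.H24.Loc
import Pool.Agent.MP_8be872_ag.H4.Cell
import Pool.Agent.MP_8be872_ag.H88.Van
import Pool.Agent.MP_8be872_ag.H42.Kos
import Pool.Agent.MP_8be872_ag.H71.Char
import Pool.Agent.MP_8be872_ag.H64.Cut
import Pool.Agent.MP_8be872_ag.H38.GSym

/-! The theorem. -/

namespace Pool.Agent.MP_8be872_ag.H56

theorem geo_of_orbit (horb : OrbitStmt) : GeoStmt :=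
  geo H29.ce (H24.loc H29.ce rep frac)
    (H88.van H29.ce rep frac (H24.loc H29.ce rep frac) (H4.cell H29.ce rep)) (H42.kos rep frac)
    (H71.char rep) (H64.cut rep) horb H38.sym

end Pool.Agent.MP_8be872_ag.H56
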