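import Pool.Agent.MP_8be872_ag.H38.Defs

/-!
The fixed loci of the rotation of the source curve on the space of stable quasimaps, their virtual
structure sheaves (Koszul homology of the moment map) and the Euler characteristics of their
cohomology.
-/

namespace Pool.Agent.MP_8be872_ag.H56

open Finset H38

/-! ### Exterior algebras and Lie algebra cohomology -/

section Ext

variable {O M : Type} [Fintype O] [DecidableEq O] [AddCommGroup M] [Module ℂ M]

/-- The sign `(-1)^(number of elements of S before o)` for a fixed enumeration of `O`. -/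
noncomputable def sgn (o : O) (S : Finset O) : ℂ :=
  (-1) ^ (S.filter fun o' => Fintype.equivFin O o' < Fintype.equivFin O o).card

/-- `M ⊗ Λ^•(ℂ^O)` is the space of functions `Finset O → M`; exterior multiplication by `o`. -/
noncomputable def wedge (o : O) : (Finset O → M) →ₗ[ℂ] (Finset O → M) :=
  LinearMap.pi fun S => if o ∈ S then sgn o S • LinearMap.proj (S.erase o) else 0

/-- Contraction with the basis vector dual to `o`. -/
noncomputable def contr (o : O) : (Finset O → M) →ₗ[ℂ] (Finset O → M) :=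
  LinearMap.pi fun S => if o ∈ S then 0 else sgn o S • LinearMap.proj (insert o S)

/-- The even (`p = false`) or odd (`p = true`) part. -/
def par (O M : Type) [AddCommGroup M] [Module ℂ M] (p : Bool) : Submodule ℂ (Finset O → M) :=
  Submodule.pi {S | decide (Odd S.card) ≠ p} fun _ => ⊥

/-- `Z ⊗ Λ^•` inside `M ⊗ Λ^•`. -/
def extOf (O : Type) (Z : Submodule ℂ M) : Submodule ℂ (Finset O → M) :=
  Submodule.pi Set.univ fun _ => Z

/-- The weight spaces of `M ⊗ Λ^•`, the generator `o` having weight `c o`. -/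
noncomputable def extW (c : O → G) (W : G → Submodule ℂ M) (γ : G) : Submodule ℂ (Finset O → M) :=
  Submodule.pi Set.univ fun S => W (γ - ∑ o ∈ S, c o)

end Ext

section CE

variable {V M : Type} [Fintype V] [DecidableEq V] [AddCommGroup M] [Module ℂ M]
  (R : V × V → Prop) [DecidablePred R]

/-- Chevalley-Eilenberg differential of the Lie algebra `𝔲` spanned by the matrix units `E_r`,
`r = (a, b)` with `R r`, acting on `M` through `ρ`; `[E_(a,b), E_(b,c)] = E_(a,c)`. -/
noncomputable def dCE (ρ : V × V → M →ₗ[ℂ] M) :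
    (Finset (Subtype R) → M) →ₗ[ℂ] (Finset (Subtype R) → M) :=
  ∑ r : Subtype R, wedge r ∘ₗ (ρ r).compLeft (Finset (Subtype R)) -
    ∑ r : Subtype R, ∑ r' : Subtype R, ∑ r'' : Subtype R,
      if r.1.2 = r'.1.1 ∧ r''.1 = (r.1.1, r'.1.2) then wedge r ∘ₗ wedge r' ∘ₗ contr r'' else 0

/-- Cochains of weight `γ` and parity `p` with values in `Z`; the root `E_(a,b)` has weight
`x a - x b`. -/
noncomputable def cochains (x : V → G) (W : G → Submodule ℂ M) (Z : Submodule ℂ M) (γ : G) (p : Bool) :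
    Submodule ℂ (Finset (Subtype R) → M) :=
  extOf (Subtype R) Z ⊓ extW (fun r : Subtype R => x r.1.2 - x r.1.1) W γ ⊓ par (Subtype R) M p

/-- Cocycles with coefficients in the subquotient `Z / B`. -/
noncomputable def cocycles (x : V → G) (W : G → Submodule ℂ M) (ρ : V × V → M →ₗ[ℂ] M)
    (Z B : Submodule ℂ M) (γ : G) (p : Bool) : Submodule ℂ (Finset (Subtype R) → M) :=
  cochains R x W Z γ p ⊓ (extOf (Subtype R) B).comap (dCE R ρ)

/-- Coboundaries with coefficients in the subquotient `Z / B`. -/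
noncomputable def cobounds (x : V → G) (W : G → Submodule ℂ M) (ρ : V × V → M →ₗ[ℂ] M)
    (Z B : Submodule ℂ M) (γ : G) (p : Bool) : Submodule ℂ (Finset (Subtype R) → M) :=
  (cochains R x W Z γ (!p)).map (dCE R ρ) ⊔ extOf (Subtype R) B

/-- The weight `γ`, parity `p` part of `H^•(𝔲, Z / B)`. -/
abbrev Hu (x : V → G) (W : G → Submodule ℂ M) (ρ : V × V → M →ₗ[ℂ] M)
    (Z B : Submodule ℂ M) (γ : G) (p : Bool) : Type :=
  cocycles R x W ρ Z B γ p ⧸ (cobounds R x W ρ Z B γ p).submoduleOf (cocycles R x W ρ Z B γ p)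

end CE

section Koszul

variable {V P : Type} [Fintype V] [DecidableEq V] [CommRing P] [Algebra ℂ P]
  (L : V × V → Prop) [DecidablePred L]

/-- The Koszul differential `θ_β ↦ μ β` on `P ⊗ Λ^•`, with generators `θ_β` for `L β`. -/
noncomputable def dKos (μ : V × V → P) :
    (Finset (Subtype L) → P) →ₗ[ℂ] (Finset (Subtype L) → P) :=
  ∑ β : Subtype L, (LinearMap.mulLeft ℂ (μ β)).compLeft (Finset (Subtype L)) ∘ₗ contr β

/-- The action of `E = E_(a,b)` on the Koszul complex: `δ` on the coefficients and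
`θ ↦ -[E, θ]` on the matrix of generators. -/
noncomputable def actKos (δ : V × V → Derivation ℂ P P) (r : V × V) :
    (Finset (Subtype L) → P) →ₗ[ℂ] (Finset (Subtype L) → P) :=
  (δ r).toLinearMap.compLeft (Finset (Subtype L)) +
    ∑ β : Subtype L, ∑ β' : Subtype L,
      ((if β.1.2 = r.2 ∧ β'.1 = (β.1.1, r.1) then (1 : ℂ) else 0) -
        if β.1.1 = r.1 ∧ β'.1 = (r.2, β.1.2) then 1 else 0) • (wedge β' ∘ₗ contr β)

/-- Koszul cycles of parity `p` over the quotient ring `P / I`. -/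
noncomputable def kosZ (μ : V × V → P) (I : Ideal P) (p : Bool) :
    Submodule ℂ (Finset (Subtype L) → P) :=
  (par _ _ p ⊔ extOf _ (I.restrictScalars ℂ)) ⊓
    (extOf _ (I.restrictScalars ℂ)).comap (dKos L μ)

/-- Koszul boundaries of parity `p` over the quotient ring `P / I`. -/
noncomputable def kosB (μ : V × V → P) (I : Ideal P) (p : Bool) :
    Submodule ℂ (Finset (Subtype L) → P) :=
  (par _ _ (!p)).map (dKos L μ) ⊔ extOf _ (I.restrictScalars ℂ)

end Koszul

/-! ### Functions on a space of matrices -/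

section Fun

variable {A V W : Type} [Fintype A] [Fintype V] [Fintype W] [DecidableEq A] [DecidableEq V]
  [DecidableEq W]

/-- Polynomial functions of matrices `x_ε ∈ End(ℂ^V ⊕ ℂ^W)`, `ε ∈ A`, and of one more variable `T`
(the index `none`). -/
abbrev Pol (A V W : Type) := MvPolynomial (Option (A × (V ⊕ W) × (V ⊕ W))) ℂ

/-- The matrix of coordinate functions of `x_ε`. -/
noncomputable def mat (ε : A) : Matrix (V ⊕ W) (V ⊕ W) (Pol A V W) :=
  fun p q => MvPolynomial.X (some (ε, p, q))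

/-- The action of the matrix unit `E = E_(a,b) ∈ End(ℂ^V)` on functions: `x ↦ -[E, x]`,
`T ↦ 0`. -/
noncomputable def act (r : V × V) : Derivation ℂ (Pol A V W) (Pol A V W) :=
  MvPolynomial.mkDerivation ℂ fun c => match c with
    | none => 0
    | some (ε, p, q) => (if q = Sum.inl r.2 then mat ε p (Sum.inl r.1) else 0) -
        if p = Sum.inl r.1 then mat ε (Sum.inl r.2) q else 0

/-- Torus weights of the coordinate functions: the basis vector `p` has weight `x p`, the arrow
`ε` has weight `t ε`, and `T` has weight `-φ`. -/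
noncomputable def polWt (x : V ⊕ W → G) (t : A → G) (φ : G) : Option (A × (V ⊕ W) × (V ⊕ W)) → G
  | none => -φ
  | some (ε, p, q) => -(x p - x q + t ε)

end Fun

/-! ### The quiver variety and the fixed loci -/

variable (Q : Quiv) (w v : Fin Q.n → ℕ)

/-- Basis of `⊕ V_i` (for `u = v`) or `⊕ W_i` (for `u = w`). -/
abbrev Bas (u : Fin Q.n → ℕ) := Σ i, Fin (u i)

/-- Arrows of the doubled framed quiver: `(some e, true)` is `e`, `(some e, false)` its reverse,
`(none, true)` is `W → V`, `(none, false)` is `V → W`. -/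
abbrev Arr := Option (Fin Q.ne) × Bool

/-- Coordinates. -/
abbrev Co := Arr Q × (Bas Q v ⊕ Bas Q w) × (Bas Q v ⊕ Bas Q w)

/-- The entries that an invariant section can have when `𝒱_i = ⊕_a O(d i a)`: those of a
representation of the framed double quiver, of degree `≥ 0`. -/
def allowed (d : Fin Q.n → ℕ → ℤ) : Co Q w v → Prop
  | ((some e, true), .inl a, .inl b) => a.1 = Q.hd e ∧ b.1 = Q.tl e ∧ d b.1 b.2 ≤ d a.1 a.2
  | ((some e, false), .inl a, .inl b) => a.1 = Q.tl e ∧ b.1 = Q.hd e ∧ d b.1 b.2 ≤ d a.1 a.2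
  | ((none, true), .inl a, .inr b) => a.1 = b.1 ∧ 0 ≤ d a.1 a.2
  | ((none, false), .inr a, .inl b) => a.1 = b.1 ∧ d b.1 b.2 ≤ 0
  | _ => False

/-- The moment map. -/
noncomputable def mom (r : Bas Q v × Bas Q v) : Pol (Arr Q) (Bas Q v) (Bas Q w) :=
  ∑ o : Option (Fin Q.ne),
    (mat (o, true) * mat (o, false) - mat (o, false) * mat (o, true) :
      Matrix (Bas Q v ⊕ Bas Q w) (Bas Q v ⊕ Bas Q w) _) (.inl r.1) (.inl r.2)

/-- Weights of the basis vectors. -/
noncomputable def basWt : Bas Q v ⊕ Bas Q w → G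
  | .inl a => xV a.1 a.2
  | .inr b => uF b.1 b.2

/-- Weights of the arrows. -/
noncomputable def arrWt : Arr Q → G
  | (some e, true) => tE e - tau
  | (some e, false) => -tE e - tau
  | (none, _) => -tau

/-- Weight spaces of the ring of functions. -/
noncomputable def polW (φ γ : G) : Submodule ℂ (Pol (Arr Q) (Bas Q v) (Bas Q w)) :=
  MvPolynomial.weightedHomogeneousSubmodule ℂ (polWt (basWt Q w v) (arrWt Q) φ) γ

/-- A point of `μ⁻¹(0)` with entries allowed for `d` (`d = 0`: any point of `μ⁻¹(0)`). -/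
def OnZ (d : Fin Q.n → ℕ → ℤ) (x : Option (Co Q w v) → ℂ) : Prop :=
  (∀ c, ¬ allowed Q w v d c → x (some c) = 0) ∧
    ∀ r : Bas Q v × Bas Q v, r.1.1 = r.2.1 → MvPolynomial.eval x (mom Q w v r) = 0

/-- Stability for `θ = (1, ..., 1)`: the image of `W` generates `V`. -/
def Stable (x : Option (Co Q w v) → ℂ) : Prop :=
  ∀ S : Submodule ℂ (Bas Q v → ℂ), (∀ b, (fun a => x (some ((none, true), .inl a, .inr b))) ∈ S) →
    (∀ (e : Fin Q.ne) (s : Bool), ∀ y ∈ S,
      (Matrix.of fun a b => x (some ((some e, s), .inl a, .inl b))).mulVec y ∈ S) → S = ⊤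

/-- `F` is a section of `⊗ det V_i`, homogeneous of weight `φ`, whose nonvanishing locus on
`μ⁻¹(0)` is the stable locus. -/
def Cuts (F : Pol (Arr Q) (Bas Q v) (Bas Q w)) (φ : G) : Prop :=
  none ∉ F.vars ∧ F ∈ polW Q w v φ φ ∧
    (∀ a : Bas Q v, ofLex φ (3 * Nat.pair a.1 a.2 + 4) = -1) ∧
    (∀ r : Bas Q v × Bas Q v, r.1.1 = r.2.1 → r.1 ≠ r.2 → act r F = 0) ∧
    ∀ x, OnZ Q w v 0 x → (MvPolynomial.eval x F ≠ 0 ↔ Stable Q w v x)

/-- The ideal of the chart `{x ∈ X_d : F x ≠ 0}`, with `T = 1 / F`. -/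
noncomputable def chart (d : Fin Q.n → ℕ → ℤ) (F : Pol (Arr Q) (Bas Q v) (Bas Q w)) :
    Ideal (Pol (Arr Q) (Bas Q v) (Bas Q w)) :=
  Ideal.span ({F * MvPolynomial.X none - 1} ∪
    {f | ∃ c, ¬ allowed Q w v d c ∧ f = MvPolynomial.X (some c)})

/-- Components of the moment map on `X_d`. -/
def RelP (d : Fin Q.n → ℕ → ℤ) (r : Bas Q v × Bas Q v) : Prop :=
  r.1.1 = r.2.1 ∧ d r.2.1 r.2.2 ≤ d r.1.1 r.1.2

instance (d : Fin Q.n → ℕ → ℤ) : DecidablePred (RelP Q v d) := fun _ => instDecidableAnd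

/-- Roots of the unipotent radical of the Borel subgroup of `∏ GL(V_i)`. -/
def RootP (r : Bas Q v × Bas Q v) : Prop := r.1.1 = r.2.1 ∧ (r.2.2 : ℕ) < r.1.2

instance : DecidablePred (RootP Q v) := fun _ => instDecidableAnd

/-- `H^(p')(𝔲, H_p(Koszul))` in weight `γ`: for `γ = g - ν` with `ν` a weight of the maximal torus
of the gauge group, the weight `g` part of the cohomology, on the flag bundle over the fixed locus
of type `d`, of the Koszul homology sheaves twisted by the line bundle of `ν`. -/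
abbrev Hfix (d : Fin Q.n → ℕ → ℤ) (F : Pol (Arr Q) (Bas Q v) (Bas Q w)) (φ γ : G)
    (p p' : Bool) : Type :=
  Hu (RootP Q v) (fun a => xV a.1 a.2)
    (extW (fun β : Subtype (RelP Q v d) => hb - (xV β.1.1.1 β.1.1.2 - xV β.1.2.1 β.1.2.2))
      (polW Q w v φ))
    (actKos (RelP Q v d) act) (kosZ (RelP Q v d) (mom Q w v) (chart Q w v d F) p)
    (kosB (RelP Q v d) (mom Q w v) (chart Q w v d F) p) γ p'

/-- The Euler characteristic of the virtual structure sheaf. -/
noncomputable def chi (d : Fin Q.n → ℕ → ℤ) (F : Pol (Arr Q) (Bas Q v) (Bas Q w)) (φ γ : G) : ℤ :=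
  ∑ p : Bool, ∑ p' : Bool,
    (if p = p' then 1 else -1) * (Module.finrank ℂ (Hfix Q w v d F φ γ p p') : ℤ)

/-- The moving part of `lam`: the weights of `H^•(P^1, w ⊗ O(m))` that involve `q`. -/
noncomputable def lamM (g : G) (m : ℤ) : K :=
  (∏ l ∈ Icc 1 m, (1 - mon (-(g + l • qq))))⁻¹ * ∏ l ∈ Ioo m 0, (1 - mon (-(g + l • qq)))

/-- The moving part of `pairF`. -/
noncomputable def pairM (g : G) (m : ℤ) : K :=
  lamM g m * lamM (-hb - g) (-m) * mon (-(m • (g + tau)) - (m * (m - 1) / 2) • qq)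

/-- `1 / Λ^•(N^vir)^∨` times the symmetrizing line bundle, expanded in `q`. -/
noncomputable def moving (d : Fin Q.n → ℕ → ℤ) : K :=
  (∏ e, ∏ a ∈ range (v (Q.tl e)), ∏ b ∈ range (v (Q.hd e)),
      pairM (tE e - tau + xV (Q.hd e) b - xV (Q.tl e) a) (d (Q.hd e) b - d (Q.tl e) a)) *
    (∏ i, ∏ k ∈ range (w i), ∏ a ∈ range (v i), pairM (xV i a - uF i k - tau) (d i a)) *
    ∏ i, ∏ a ∈ range (v i), ∏ b ∈ range (v i), (pairM (xV i a - xV i b) (d i a - d i b))⁻¹

/-- Splitting types of total degree `D`, listed in increasing order. -/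
noncomputable def types (D : Fin Q.n →₀ ℕ) : Finset (Fin Q.n → ℕ → ℕ) :=
  (Fintype.piFinset fun i => piAntidiag (range (v i)) (D i)).filter
    fun d => ∀ i, ∀ b ∈ range (v i), ∀ a ∈ range b, d i a ≤ d i b

/-- The multiplicity of the weight `g` in `χ(QM^D, Ô^vir)`. -/
noncomputable def vertexCoeff (F : Pol (Arr Q) (Bas Q v) (Bas Q w)) (φ : G) (D : Fin Q.n →₀ ℕ)
    (g : G) : ℚ :=
  ∑ d ∈ types Q v D, ∑ᶠ β : G,
    (moving Q w v fun i a => d i a).coeff β * chi Q w v (fun i a => d i a) F φ (g - β)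

/-- The statement. -/
def GeoStmt : Prop :=
  ∀ Q : Quiv, (∀ e, Q.hd e ≠ Q.tl e) → ∀ w v : Fin Q.n → ℕ, InOrbit Q w (fun i => v i) →
    (∃ x, OnZ Q w v 0 x ∧ Stable Q w v x) ∧ (∃ F φ, Cuts Q w v F φ) ∧
    (∀ d x, OnZ Q w v d x → Stable Q w v x → ∀ a : Bas Q v, 0 ≤ d a.1 a.2) ∧
    (negRoots Q w v).Finite ∧
    ∀ F φ, Cuts Q w v F φ → ∀ D : Fin Q.n →₀ ℕ,
      (∀ d ∈ types Q v D, ∀ g : G,
        (∀ p p', FiniteDimensional ℂ (Hfix Q w v (fun i a => d i a) F φ g p p')) ∧
        (Function.support fun β : G => (moving Q w v fun i a => d i a).coeff β *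
          chi Q w v (fun i a => d i a) F φ (g - β)).Finite) ∧
      ∀ g : G, (∀ i a, ofLex g (3 * Nat.pair i a + 4) = 0) → ∀ᶠ J in Filter.atTop,
        (-1 : ℚ) ^ (∑ i, aExp Q w v i * D i) *
            vertexCoeff Q w v F φ D (g + (∑ i, aExp Q w v i * D i) • tau) =
          (MvPowerSeries.coeff D (rhs Q w v J)).coeff g

end Pool.Agent.MP_8be872_ag.H56
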