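import Pool.Agent.MP_8be872_ag.H56.Geo

/-! Dimensions of the cohomology spaces and the coefficients of the vertex function. -/

namespace Pool.Agent.MP_8be872_ag.H56

open Finset H38

/-- The dimension of the weight `γ`, parity `p` part of `H^•(𝔲, Z / B)`. -/
noncomputable def huDim {V M : Type} [Fintype V] [DecidableEq V] [AddCommGroup M] [Module ℂ M]
    (R : V × V → Prop) [DecidablePred R] (x : V → G) (W : G → Submodule ℂ M)
    (ρ : V × V → M →ₗ[ℂ] M) (Z B : Submodule ℂ M) (γ : G) (p : Bool) : Cardinal :=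
  Module.rank ℂ (Hu R x W ρ Z B γ p)

variable (Q : Quiv) (w v : Fin Q.n → ℕ)

/-- The dimension of `H^(p')(𝔲, H_p(Koszul))` in weight `γ`: for `γ = g - ν` with `ν` a weight of
the maximal torus of the gauge group, the weight `g` part of the cohomology, on the flag bundle over
the fixed locus of type `d`, of the Koszul homology sheaves twisted by the line bundle of `ν`. -/
noncomputable def fixDim (d : Fin Q.n → ℕ → ℤ) (F : Pol (Arr Q) (Bas Q v) (Bas Q w)) (φ γ : G)
    (p p' : Bool) : Cardinal :=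
  huDim (RootP Q v) (fun a => xV a.1 a.2)
    (extW (fun β : Subtype (RelP Q v d) => hb - (xV β.1.1.1 β.1.1.2 - xV β.1.2.1 β.1.2.2))
      (polW Q w v φ))
    (actKos (RelP Q v d) act) (kosZ (RelP Q v d) (mom Q w v) (chart Q w v d F) p)
    (kosB (RelP Q v d) (mom Q w v) (chart Q w v d F) p) γ p'

/-- The Euler characteristic of the virtual structure sheaf. -/
noncomputable def euler (d : Fin Q.n → ℕ → ℤ) (F : Pol (Arr Q) (Bas Q v) (Bas Q w)) (φ γ : G) :
    ℤ :=
  ∑ p : Bool, ∑ p' : Bool,
    (if p = p' then 1 else -1) * (Cardinal.toNat (fixDim Q w v d F φ γ p p') : ℤ)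

/-- The multiplicity of the weight `g` in `χ(QM^D, Ô^vir)`. -/
noncomputable def vcoeff (F : Pol (Arr Q) (Bas Q v) (Bas Q w)) (φ : G) (D : Fin Q.n →₀ ℕ)
    (g : G) : ℚ :=
  ∑ d ∈ types Q v D, ∑ᶠ β : G,
    (moving Q w v fun i a => d i a).coeff β * euler Q w v (fun i a => d i a) F φ (g - β)

end Pool.Agent.MP_8be872_ag.H56
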