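import Pool.Agent.MP_8be872_ag.H56.SemiB

/-! Weights, invariance and restriction to the slice of the minors. -/

namespace Pool.Agent.MP_8be872_ag.H56.SemiL

open Finset H38 H63 MvPolynomial
open scoped Matrix

variable {Q : Quiv} {w v D : Fin Q.n → ℕ} {J : Type} {d : Bas Q v → ℕ}
  {lab : Bas Q D → Bas Q v × ℕ}

theorem al0_zero (h : IsLab d lab) {p q : Nb Q w v D} (hs : ¬ shape rad ka p q) :
    al0 lab p q = 0 := by
  rcases q with τ | c
  · refine if_neg fun e => hs ⟨?_, rfl⟩
    rcases p with τ' | a | a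
    · have e0 : ((lab τ').1, (lab τ').2 + 1) = lab τ := Option.some.inj e
      have e1 : (lab τ').1 = (lab τ).1 := by rw [← e0]
      refine ⟨?_, zero_lt_two, zero_lt_two⟩
      show τ'.1 = τ.1
      rw [← h.vert τ', e1, h.vert]
    · have e1 : a = (lab τ).1 := congrArg Prod.fst (Option.some.inj e)
      refine ⟨?_, one_lt_two, zero_lt_two⟩
      show a.1 = τ.1
      rw [e1, h.vert]
    · cases e
  · rfl

open Classical in
theorem YS_a (p q : Nb Q w v D) : YSpol (J := J) lab ka p q =
    C (al0 lab p q) + if shS lab ka p q then X (.inl (.inr true, p, q)) else 0 := by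
  simp only [YSpol, YS, if_true]
  rfl

theorem res_a (h : IsLab d lab) : (Ypol (w := w) (J := J) ka).map (resS lab) = YSpol lab ka := by
  ext p q : 1
  rw [YS_a, Matrix.map_apply]
  by_cases hs : shape rad ka p q
  · have e : Ypol (J := J) ka p q = X (.inl (.inr true, p, q)) := if_pos hs
    rw [e, resS, aeval_X]
    by_cases ht : top lab p
    · rw [ht q, if_pos (show shS lab ka p q from ⟨hs, fun _ => ht⟩), map_zero, zero_add]
      exact if_pos ht
    · rw [if_neg fun h' : shS lab ka p q => ht (h'.2 rfl), add_zero]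
      exact if_neg ht
  · rw [Y_zero hs, al0_zero h hs, if_neg fun h' : shS lab ka p q => hs h'.1, map_zero, map_zero,
      add_zero]

theorem res_x (ε : Arr Q) :
    (Ypol (w := w) (J := J) (kx ε)).map (resS lab) = YSpol lab (kx ε) := by
  ext p q : 1
  have e0 : YSpol (J := J) lab (kx ε) p q = open Classical in
      if shS lab (kx ε) p q then X (.inl (.inl ε, p, q)) else 0 := by
    simp only [YSpol, YS, Sum.inl.injEq, reduceCtorEq, if_false]
    rfl
  rw [e0, Matrix.map_apply]
  by_cases hs : shape rad (kx ε) p q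
  · have e : Ypol (J := J) (kx ε) p q = X (.inl (.inl ε, p, q)) := if_pos hs
    rw [e, resS, aeval_X, if_pos (show shS lab (kx ε) p q from ⟨hs, fun h => by cases h⟩)]
  · rw [Y_zero hs, if_neg fun h' : shS lab (kx ε) p q => hs h'.1, map_zero]

theorem row_one (h : IsLab d lab) {p : Nb Q w v D} {τ : Bas Q D} (e : hp lab p = some (lab τ))
    (q : Nb Q w v D) : YSpol (J := J) lab ka p q = if q = .inl τ then 1 else 0 := by
  have ht : ¬ top lab p := fun ht => by
    have : al0 lab p (.inl τ) = 1 := if_pos e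
    rw [ht] at this
    exact zero_ne_one this
  rw [YS_a, if_neg fun h' : shS lab ka p q => ht (h'.2 rfl), add_zero]
  rcases q with τ' | c
  · show C (if hp lab p = some (lab τ') then 1 else 0) = _
    by_cases e' : τ' = τ
    · rw [e', if_pos e, if_pos rfl, map_one]
    · rw [if_neg fun e'' => e' (h.inj (Option.some.inj (e''.symm.trans e))),
        if_neg fun e'' => e' (Sum.inl.inj e''), map_zero]
  · rw [if_neg (by simp)]
    exact map_zero _

theorem row_pow (h : IsLab d lab) (k : ℕ) : ∀ τ : Bas Q D, (lab τ).2 = k → ∀ q : Nb Q w v D,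
    (YSpol (J := J) lab ka ^ (k + 1)) (.inr (.inl (lab τ).1)) q = if q = .inl τ then 1 else 0 := by
  induction k with
  | zero =>
    intro τ e q
    rw [zero_add, pow_one]
    exact row_one h (p := .inr (.inl (lab τ).1)) (show some ((lab τ).1, 0) = some (lab τ) by rw [← e]) q
  | succ k ih =>
    intro τ e q
    obtain ⟨τ', e'⟩ := h.surj (lab τ).1 k (by have := h.lt τ; omega)
    have := ih τ' (by rw [e'])
    rw [show (lab τ').1 = (lab τ).1 by rw [e']] at this
    rw [pow_succ, Matrix.mul_apply]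
    simp only [this, ite_mul, one_mul, zero_mul, sum_ite_eq', mem_univ, if_true]
    exact row_one h (p := .inl τ') (show some ((lab τ').1, (lab τ').2 + 1) = some (lab τ) by
      rw [e', ← e]) q

theorem res_minor (h : IsLab d lab) : resS lab (minorP lab (Ypol (w := w) (J := J) ka)) = 1 := by
  rw [minorP, AlgHom.map_det, ← Matrix.det_one (n := Bas Q D)]
  congr 1
  ext τ τ' : 1
  have := congrFun (congrFun (map_pow (resS (w := w) (J := J) lab).mapMatrix (Ypol ka)
    ((lab τ).2 + 1)) (.inr (.inl (lab τ).1))) (.inl τ')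
  rw [AlgHom.mapMatrix_apply, AlgHom.mapMatrix_apply, res_a h, row_pow h _ τ rfl] at this
  refine this.trans ?_
  simp [Matrix.one_apply, eq_comm]

theorem der_minor {a b : Bas Q D} (hne : a ≠ b) (hv : a.1 = b.1)
    (dd : Derivation ℂ (MvPolynomial (Ix Q w v D J) ℂ) (MvPolynomial (Ix Q w v D J) ℂ))
    (hd : (Ypol ka).map dd = msk rad (fun k => Ypol k * Matrix.single (.inl a) (.inl b) 1 -
      Matrix.single (.inl a) (.inl b) 1 * Ypol k) ka) : dd (minorP lab (Ypol ka)) = 0 := by
  have hab : arrow (.inr true) (.inl a : Nb Q w v D) (.inl b) := ⟨hv, zero_lt_two, zero_lt_two⟩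
  have h1 : (Ypol ka).map dd = Ypol ka * Matrix.single (.inl a) (.inl b) 1 -
      Matrix.single (.inl a) (.inl b) 1 * Ypol ka := by
    rw [hd]
    ext p q : 1
    rw [msk_a hab, comm_apply]
    congr 2
    exact propext ⟨fun e => e.1, fun e => ⟨e, rfl⟩⟩
  refine der_det dd _ (Matrix.single a b 1) 0 (Matrix.trace_single_eq_of_ne _ _ _ hne)
    (Matrix.trace_zero _ _) ?_
  ext τ τ' : 1
  have := congrFun (congrFun (der_pow dd _ _ h1 ((lab τ).2 + 1)) (.inr (.inl (lab τ).1))) (.inl τ')
  rw [comm_apply, if_neg (show ¬ (Sum.inr _ = Sum.inl a) by simp), sub_zero] at this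
  refine this.trans ?_
  rw [Matrix.zero_mul, sub_zero]
  by_cases e : τ' = b
  · rw [e, if_pos rfl, Matrix.mul_single_apply_same, mul_one, Matrix.of_apply]
  · rw [if_neg fun e' => e (Sum.inl.inj e')]
    exact (Matrix.mul_single_apply_of_ne _ _ _ _ _ e _).symm

variable [Fintype J] [DecidableEq J]

theorem part2 (H : Glob2At Q w v D J) (h : IsLab d lab) :
    ∃ ψ, SemiT (minorP lab (Ypol (w := w) (J := J) ka)) ψ ∧
      ∀ σ Λ, LamOK (w := w) σ d lab Λ → Λ ψ = 0 := by
  have hom := grH.det (Matrix.of fun τ τ' : Bas Q D =>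
      (Ypol (w := w) (J := J) ka ^ ((lab τ).2 + 1)) (.inr (.inl (lab τ).1)) (.inl τ'))
    (fun τ => bw (.inl τ : Nb Q w v D))
    (fun τ => bw (.inr (.inl (lab τ).1) : Nb Q w v D) - ((lab τ).2 + 1) • qq) fun τ τ' => by
      rw [Matrix.of_apply, ← sub_add]
      exact grH.pow _ bw qq hom_a _ _ _
  have inv : ∀ a b : Nb Q w v D, a ≠ b → vx a = vx b → blk a = 0 → blk b = 0 →
      lie (J := J) rad a b (pol (minorP lab (Ypol ka))) = 0 := fun a b hne hv ha hb => by
    rcases a with a | a | a
    · rcases b with b | b | b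
      · obtain ⟨dd, h1, h2⟩ := H.der (.inl a) (.inl b)
        rw [h1, der_minor (fun e => hne (congrArg _ e)) hv dd (h2 ka rfl)]
        exact Pi.single_zero _
      · cases hb
      · cases hb
    · cases ha
    · cases ha
  refine ⟨_, ⟨hom, H.const _ _ 0 zero_lt_two (fun e => ?_) hom inv, fun a b hab => ?_⟩,
    fun σ Λ hΛ => ?_⟩
  · have := res_minor (w := w) (J := J) h
    rw [minorP, e, map_zero] at this
    exact zero_ne_one this
  · rw [H.radT a b hab.2.2.1 hab.2.2.2]
    exact inv a b hab.1 hab.2.1 hab.2.2.1 hab.2.2.2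
  · rw [← sum_sub_distrib, map_sum]
    refine sum_eq_zero fun τ _ => ?_
    rw [map_sub, map_sub, map_nsmul, hΛ.bas, hΛ.bas, hΛ.fix _ free_qq, ← natCast_zsmul]
    simp only [xs, lv, sub_smul, Nat.cast_add, Nat.cast_one]
    abel

theorem part3 (H : Glob2At Q w v D J) (F F' : MvPolynomial (Ix Q w v D J) ℂ) (ψ ψ' : G)
    (h : SemiT F ψ) (h' : SemiT F' ψ') :
    SemiT (F * F') (ψ + ψ') ∧ SemiT (1 : MvPolynomial (Ix Q w v D J) ℂ) 0 := by
  refine ⟨⟨grH.mul h.1 h'.1, fun p q h1 h2 h3 => ?_, fun a b hab => ?_⟩, grH.one,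
    fun p q _ _ _ => by rw [map_zero, map_zero], fun a b hab => ?_⟩
  · rw [map_add, map_add, h.2.1 p q h1 h2 h3, h'.2.1 p q h1 h2 h3]
  · obtain ⟨dd, h1, -⟩ := H.der a b
    have e := h.2.2 a b hab
    have e' := h'.2.2 a b hab
    rw [H.radT a b hab.2.2.1 hab.2.2.2, h1] at e e' ⊢
    rw [Derivation.leibniz, pol_eq_zero e, pol_eq_zero e', smul_zero, smul_zero, add_zero]
    exact Pi.single_zero _
  · obtain ⟨dd, h1, -⟩ := H.der a b
    rw [H.radT a b hab.2.2.1 hab.2.2.2, h1, Derivation.map_one_eq_zero]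
    exact Pi.single_zero _

end Pool.Agent.MP_8be872_ag.H56.SemiL

namespace Pool.Agent.MP_8be872_ag.H56

open H63 SemiL

/-- Module Semi. -/
theorem semi : Glob2Stmt → SemiStmt := fun H Q w v D J _ _ =>
  ⟨part1 (H Q w v D J), fun _ _ h => ⟨part2 (H Q w v D J) h, res_minor h, fun k hk => by
    rcases k with (ε | _ | _) | (ε | _ | _)
    · exact res_x ε
    · cases hk
    · exact res_a h
    · cases hk
    · cases hk
    · cases hk⟩, part3 (H Q w v D J)⟩

end Pool.Agent.MP_8be872_ag.H56
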