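import Pool.Agent.MP_8be872_ag.H63.SpecC
import Pool.Agent.MP_8be872_ag.H63.ApiA

/-! Weights and derivatives of determinants, powers and path columns. -/

namespace Pool.Agent.MP_8be872_ag.H56.SemiL

open Finset H38 H63 MvPolynomial
open scoped Matrix

section Der

variable {V P : Type} [Fintype V] [DecidableEq V] [CommRing P] [Algebra ℂ P]

theorem der_det (δ : Derivation ℂ P P) (M A B : Matrix V V P) (hA : A.trace = 0)
    (hB : B.trace = 0) (h : M.map δ = M * A - B * M) : δ M.det = 0 := by
  let ψ : P →+* DualNumber P :=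
    { toFun := fun f => TrivSqZeroExt.inl f + TrivSqZeroExt.inr (δ f)
      map_one' := by ext <;> simp
      map_mul' := fun f g => by ext <;> simp [mul_comm]
      map_zero' := by ext <;> simp
      map_add' := fun f g => by ext <;> simp }
  let ι : P →+* DualNumber P := TrivSqZeroExt.inlHom P P
  have e0 : ∀ f, ψ f = ι f + DualNumber.eps * ι (δ f) := fun f => by ext <;> simp [ψ, ι]
  have e1 : ψ.mapMatrix M = ι.mapMatrix M +
      (DualNumber.eps : DualNumber P) • ι.mapMatrix (M * A - B * M) := by
    rw [← h]
    ext p q : 1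
    exact e0 _
  have ee : (DualNumber.eps : DualNumber P) * DualNumber.eps = 0 := DualNumber.eps_mul_eps
  have e2 : ψ.mapMatrix M = (1 + (DualNumber.eps : DualNumber P) • ι.mapMatrix (-B)) *
      ι.mapMatrix M * (1 + (DualNumber.eps : DualNumber P) • ι.mapMatrix A) := by
    rw [e1, map_sub, map_mul, map_mul, map_neg]
    simp only [add_mul, mul_add, one_mul, mul_one, Matrix.smul_mul, Matrix.mul_smul, smul_add,
      smul_smul, ee, zero_smul, add_zero, smul_sub, neg_mul, smul_neg]
    abel
  have e3 : ∀ N : Matrix V V P, N.trace = 0 →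
      (1 + (DualNumber.eps : DualNumber P) • ι.mapMatrix N).det = 1 := fun N hN => by
    have : (ι.mapMatrix N).trace = 0 := by
      rw [RingHom.mapMatrix_apply, ← AddMonoidHom.map_trace, hN, map_zero]
    rw [Matrix.det_one_add_smul, this, sq, ee]
    simp
  have := ψ.map_det M
  rw [e2, Matrix.det_mul, Matrix.det_mul, e3 A hA, e3 (-B) (by rw [Matrix.trace_neg, hB, neg_zero]),
    one_mul, mul_one, ← RingHom.map_det] at this
  simpa [ψ, ι] using congrArg TrivSqZeroExt.snd this

omit [DecidableEq V] in
theorem der_mul (δ : Derivation ℂ P P) (M N : Matrix V V P) :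
    (M * N).map δ = M.map δ * N + M * N.map δ := by
  ext p q
  simp only [Matrix.map_apply, Matrix.mul_apply, map_sum, Derivation.leibniz, smul_eq_mul,
    Matrix.add_apply, ← sum_add_distrib]
  exact sum_congr rfl fun r _ => by ring

theorem der_pow (δ : Derivation ℂ P P) (M E : Matrix V V P) (h : M.map δ = M * E - E * M)
    (n : ℕ) : (M ^ n).map δ = M ^ n * E - E * M ^ n := by
  induction n with
  | zero =>
    ext p q
    simp only [pow_zero, one_mul, mul_one, sub_self, Matrix.map_apply, Matrix.one_apply,
      Matrix.zero_apply]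
    split_ifs <;> simp
  | succ n ih =>
    rw [pow_succ, der_mul, ih, h]
    noncomm_ring

theorem der_col {Q : Quiv} (δ : Derivation ℂ P P) (at' : Fin Q.n → V → Prop)
    (x : Arr Q → Matrix V V P) (y₀ : V → P) (a b : V) (hab : ∀ j, at' j a ↔ at' j b)
    (hx : ∀ ε, (x ε).map δ = x ε * Matrix.single a b 1 - Matrix.single a b 1 * x ε)
    (h0 : ∀ p, δ (y₀ p) = if p = a then -y₀ b else 0) (l : List (Arr Q × Fin Q.n)) (p : V) :
    δ (colP at' x y₀ l p) = if p = a then -colP at' x y₀ l b else 0 := by
  induction l generalizing p with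
  | nil => exact h0 p
  | cons s l ih =>
    have e : ∀ p, colP at' x y₀ (s :: l) p = open Classical in
        if at' s.2 p then (x s.1 *ᵥ colP at' x y₀ l) p else 0 := fun _ => rfl
    have k : δ ((x s.1 *ᵥ colP at' x y₀ l) p) =
        if p = a then -(x s.1 *ᵥ colP at' x y₀ l) b else 0 := by
      have h1 : ∀ q, δ (x s.1 p q) =
          (if q = b then x s.1 p a else 0) - if p = a then x s.1 b q else 0 := fun q => by
        have := congrFun (congrFun (hx s.1) p) q
        rw [Matrix.map_apply] at this
        rw [this, Matrix.sub_apply]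
        congr 1
        · split_ifs with h
          · rw [h, Matrix.mul_single_apply_same, mul_one]
          · exact Matrix.mul_single_apply_of_ne _ _ _ _ _ h _
        · split_ifs with h
          · rw [h, Matrix.single_mul_apply_same, one_mul]
          · exact Matrix.single_mul_apply_of_ne _ _ _ _ _ h _
      simp only [Matrix.mulVec, dotProduct, map_sum, Derivation.leibniz, ih, h1, smul_eq_mul,
        mul_sub, mul_ite, mul_zero, sum_add_distrib, sum_sub_distrib, sum_ite_eq', mem_univ,
        if_true]
      by_cases hp : p = a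
      · simp [hp, mul_comm, add_sub]
      · simp [hp, mul_comm]
    rw [e, e]
    by_cases hp : p = a
    · subst hp
      by_cases hj : at' s.2 p
      · rw [if_pos hj, if_pos ((hab _).1 hj), k]
      · rw [if_neg hj, if_neg fun h => hj ((hab _).2 h), map_zero, neg_zero, ite_self]
    · rw [if_neg hp]
      split_ifs
      · rw [k, if_neg hp]
      · exact map_zero _

end Der

/-- A family of weight spaces. -/
structure Gr {A : Type} [CommRing A] (H : A → G → Prop) : Prop where
  zero : ∀ g, H 0 g
  one : H 1 0
  add : ∀ {x y g}, H x g → H y g → H (x + y) g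
  neg : ∀ {x g}, H x g → H (-x) g
  mul : ∀ {x y g g'}, H x g → H y g' → H (x * y) (g + g')

namespace Gr

variable {A : Type} [CommRing A] {H : A → G → Prop} (h : Gr H)
include h

theorem sum {ι : Type} (s : Finset ι) {f : ι → A} {g : G} (hf : ∀ i ∈ s, H (f i) g) :
    H (∑ i ∈ s, f i) g :=
  sum_induction f (fun x => H x g) (fun _ _ => h.add) (h.zero g) hf

theorem prod {ι : Type} (s : Finset ι) {f : ι → A} {g : ι → G} (hf : ∀ i, H (f i) (g i)) :
    H (∏ i ∈ s, f i) (∑ i ∈ s, g i) := by
  classical
  induction s using Finset.induction_on with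
  | empty => simpa using h.one
  | insert i s hi ih =>
    rw [prod_insert hi, sum_insert hi]
    exact h.mul (hf i) ih

theorem det {V : Type} [Fintype V] [DecidableEq V] (M : Matrix V V A) (ρ ρ' : V → G)
    (hM : ∀ p q, H (M p q) (ρ q - ρ' p)) : H M.det (∑ q, ρ q - ∑ p, ρ' p) := by
  rw [Matrix.det_apply]
  refine h.sum _ fun σ _ => ?_
  have := h.prod univ fun i => hM (σ i) i
  rw [sum_sub_distrib, Equiv.sum_comp σ ρ'] at this
  rcases Int.units_eq_one_or (Equiv.Perm.sign σ) with e | e
  · rwa [e, one_smul]
  · rw [e, Units.neg_smul, one_smul]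
    exact h.neg this

theorem ite_one {V : Type} [DecidableEq V] (y : V → G) (p q : V) :
    H (if p = q then 1 else 0) (y q - y p) := by
  split_ifs with e
  · rw [e, sub_self]
    exact h.one
  · exact h.zero _

theorem pow {V : Type} [Fintype V] [DecidableEq V] (M : Matrix V V A) (y : V → G) (t : G)
    (hM : ∀ p q, H (M p q) (y q - y p + t)) (n : ℕ) (p q : V) :
    H ((M ^ n) p q) (y q - y p + n • t) := by
  induction n generalizing q with
  | zero =>
    rw [pow_zero, Matrix.one_apply, zero_smul, add_zero]
    exact h.ite_one y p q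
  | succ n ih =>
    rw [pow_succ, Matrix.mul_apply]
    refine h.sum _ fun r _ => ?_
    have := h.mul (ih r) (hM r q)
    rwa [show y r - y p + n • t + (y q - y r + t) = y q - y p + (n + 1) • t by
      rw [add_smul, one_smul]; abel] at this

theorem col {Q : Quiv} {V : Type} [Fintype V] [DecidableEq V] (at' : Fin Q.n → V → Prop)
    (x : Arr Q → Matrix V V A) (y : V → G) (t : Arr Q → G)
    (hx : ∀ ε p q, H (x ε p q) (y q - y p - t ε)) (b : V) (l : List (Arr Q × Fin Q.n)) (p : V) :
    H (colP at' x (Pi.single b 1) l p) (y b - (l.map fun s => t s.1).sum - y p) := by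
  induction l generalizing p with
  | nil =>
    have := h.ite_one y p b
    simpa [colP, Pi.single_apply] using this
  | cons s l ih =>
    have e : colP at' x (Pi.single b 1) (s :: l) p = open Classical in
        if at' s.2 p then (x s.1 *ᵥ colP at' x (Pi.single b 1) l) p else 0 := rfl
    rw [e]
    split_ifs
    · refine h.sum _ fun r _ => ?_
      have := h.mul (hx s.1 p r) (ih r)
      rwa [show y r - y p - t s.1 + (y b - (l.map fun s => t s.1).sum - y r) =
        y b - ((s :: l).map fun s => t s.1).sum - y p by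
          rw [List.map_cons, List.sum_cons]; abel] at this
    · exact h.zero _

end Gr

theorem gr_wh {σ : Type} (c : σ → G) :
    Gr fun (F : MvPolynomial σ ℂ) g => IsWeightedHomogeneous c F g where
  zero := isWeightedHomogeneous_zero ℂ c
  one := isWeightedHomogeneous_one ℂ c
  add := IsWeightedHomogeneous.add
  neg := fun {_ g} h => (weightedHomogeneousSubmodule ℂ c g).neg_mem h
  mul := IsWeightedHomogeneous.mul

section Pol

variable {E O : Type} [Fintype E] [Fintype O] [DecidableEq E] [DecidableEq O]

omit [Fintype E] [Fintype O] [DecidableEq E] in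
theorem pol_eq_zero {F : MvPolynomial E ℂ} (h : (pol F : Sp E O) = 0) : F = 0 := by
  simpa [pol] using congrFun h ∅

theorem gr_mono (A : E ⊕ O → Prop) (c : E ⊕ O → G) :
    Gr fun (F : MvPolynomial E ℂ) g =>
      (pol F : Sp E O) ∈ mono fun μ => sup A μ ∧ ws c μ = g where
  zero := fun _ => pol_mem.2 fun _ hm => absurd rfl hm
  one := one_mem ⟨fun _ h => absurd rfl h, ws_zero c⟩
  add := fun {x y _} h h' => by
    have e : (pol (x + y) : Sp E O) = pol x + pol y := Pi.single_add _ _ _
    rw [e]
    exact add_mem h h'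
  neg := fun {x _} h => by
    have e : (pol (-x) : Sp E O) = -pol x := Pi.single_neg _ _
    rw [e]
    exact neg_mem h
  mul := fun {x y _ _} h h' => by
    have e : (pol (x * y) : Sp E O) = mul x (pol y) := by
      rw [← mul_one_eq, ← mul_one_eq, mul_mul]
      rfl
    rw [e]
    exact words_apply_mem (mul_mem_words_of_pol h) h' fun a b ha hb =>
      ⟨sup_add.2 ⟨ha.1, hb.1⟩, by rw [ws_add, ha.2, hb.2]⟩

theorem mono_X {A : E ⊕ O → Prop} {c : E ⊕ O → G} {e : E} (h : A (.inl e)) :
    (pol (X e) : Sp E O) ∈ mono fun μ => sup A μ ∧ ws c μ = c (.inl e) := by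
  rw [← mul_one_eq]
  refine gn_mem (.inl e) (one_mem (P := fun μ => μ = 0) rfl) fun μ hμ => ?_
  rw [hμ, zero_add]
  exact ⟨sup_single.2 h, ws_single _ _⟩

end Pol

end Pool.Agent.MP_8be872_ag.H56.SemiL
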