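import Pool.Agent.MP_8be872_ag.H56.SemiA
import Pool.Agent.MP_8be872_ag.H56.Rep

/-! Weights and invariance of the cutting function. -/

namespace Pool.Agent.MP_8be872_ag.H56.SemiL

open Finset H38 H63 MvPolynomial
open scoped Matrix

variable {Q : Quiv} {w v D : Fin Q.n → ℕ} {J : Type}

theorem comm_apply {V P : Type} [Fintype V] [DecidableEq V] [CommRing P] (X Y : Matrix V V P)
    (a b p q : V) : (X * Matrix.single a b 1 - Matrix.single a b 1 * Y : Matrix V V P) p q =
      (if q = b then X p a else 0) - if p = a then Y b q else 0 := by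
  rw [Matrix.sub_apply]
  congr 1
  · split_ifs with h
    · rw [h, Matrix.mul_single_apply_same, mul_one]
    · exact Matrix.mul_single_apply_of_ne _ _ _ _ _ h _
  · split_ifs with h
    · rw [h, Matrix.single_mul_apply_same, one_mul]
    · exact Matrix.single_mul_apply_of_ne _ _ _ _ _ h _

theorem Y_zero {k : Kd Q} {p q : Nb Q w v D} (h : ¬ shape rad k p q) :
    Ypol (J := J) k p q = 0 := if_neg h

theorem arrow_right {τ : Arr Q ⊕ Bool} {p a b : Nb Q w v D} (hab : arrow (.inr true) a b)
    (h : arrow τ p a) : arrow τ p b := by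
  obtain ⟨h1, h2, h3⟩ := hab
  rcases τ with ⟨_ | e, _ | _⟩ | _ <;> simp only [arrow, ← h1] at h ⊢ <;> simp_all

theorem arrow_left {τ : Arr Q ⊕ Bool} {q a b : Nb Q w v D} (hab : arrow (.inr true) a b)
    (h : arrow τ b q) : arrow τ a q := by
  obtain ⟨h1, h2, h3⟩ := hab
  rcases τ with ⟨_ | e, _ | _⟩ | _ <;> simp only [arrow, h1] at h ⊢ <;> simp_all

theorem msk_x {a b : Nb Q w v D} (hab : arrow (.inr true) a b) (hle : blk a ≤ blk b) (ε : Arr Q) :
    msk rad (fun k => Ypol (J := J) k * Matrix.single a b 1 - Matrix.single a b 1 * Ypol k) (kx ε) =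
      Ypol (kx ε) * Matrix.single a b 1 - Matrix.single a b 1 * Ypol (kx ε) := by
  ext p q : 1
  unfold msk
  split_ifs with h
  · rfl
  · rw [comm_apply]
    have e1 : (if q = b then Ypol (J := J) (kx ε) p a else 0) = 0 := by
      split_ifs with e
      · subst e
        exact Y_zero fun h' => h ⟨arrow_right hab h'.1, fun h0 => h'.2 (by omega)⟩
      · rfl
    have e2 : (if p = a then Ypol (J := J) (kx ε) b q else 0) = 0 := by
      split_ifs with e
      · subst e
        exact Y_zero fun h' => h ⟨arrow_left hab h'.1, fun h0 => by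
          have := h'.2 h0
          omega⟩
      · rfl
    rw [e1, e2, sub_zero]

theorem msk_a {a b : Nb Q w v D} (hab : arrow (.inr true) a b) (p q : Nb Q w v D) :
    msk rad (fun k => Ypol (J := J) k * Matrix.single a b 1 - Matrix.single a b 1 * Ypol k) ka p q =
      (if q = b ∧ blk b = 0 then Ypol ka p a else 0) - if p = a then Ypol ka b q else 0 := by
  unfold msk
  by_cases h : shape rad ka p q
  · rw [if_pos h]
    refine (comm_apply _ _ _ _ _ _).trans ?_
    congr 2
    exact propext ⟨fun e => ⟨e, e ▸ h.2⟩, fun e => e.1⟩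
  · have e1 : (if q = b ∧ blk b = 0 then Ypol (J := J) ka p a else 0) = 0 := by
      split_ifs with e
      · obtain ⟨rfl, e⟩ := e
        exact Y_zero fun h' => h ⟨arrow_right hab h'.1, e⟩
      · rfl
    have e2 : (if p = a then Ypol (J := J) ka b q else 0) = 0 := by
      split_ifs with e
      · subst e
        exact Y_zero fun h' => h ⟨arrow_left hab h'.1, h'.2⟩
      · rfl
    rw [if_neg h, e1, e2, sub_zero]

theorem Fmat_col {A : Type} [CommRing A] (P : Bas Q v → Pth Q w)
    (Y : Kd Q → Matrix (Nb Q w v D) (Nb Q w v D) A) (p : Nb Q w v D) (b : Bas Q v) :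
    Fmat P Y p (.inr (.inl b)) = colP (fun j p => blk p < 2 ∧ vx p = j) (fun ε => Y (kx ε))
      (Pi.single (.inr (.inr (P b).1)) 1) (P b).2 p := rfl

theorem der_FP (P : Bas Q v → Pth Q w) {a b : Nb Q w v D} (hne : a ≠ b)
    (hab : arrow (.inr true) a b) (hle : blk a ≤ blk b)
    (dd : Derivation ℂ (MvPolynomial (Ix Q w v D J) ℂ) (MvPolynomial (Ix Q w v D J) ℂ))
    (hd : ∀ k : Kd Q, k.isLeft → (Ypol k).map dd =
      msk rad (fun k => Ypol k * Matrix.single a b 1 - Matrix.single a b 1 * Ypol k) k) :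
    dd (FP P) = 0 := by
  refine der_det dd _ (if blk b = 0 then Matrix.single a b 1 else 0) (Matrix.single a b 1) ?_
    (Matrix.trace_single_eq_of_ne _ _ _ hne) ?_
  · split_ifs
    · exact Matrix.trace_single_eq_of_ne _ _ _ hne
    · exact Matrix.trace_zero _ _
  have hW : ∀ c, b ≠ .inr (.inr c) := fun c e => by
    have := hab.2.2
    rw [e] at this
    exact lt_irrefl _ this
  ext p q : 1
  have key : dd (Fmat P Ypol p q) = (if q = b ∧ blk b = 0 then Fmat P Ypol p a else 0) -
      if p = a then Fmat P Ypol b q else 0 := by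
    rcases q with τ | c | c
    · have := congrFun (congrFun (hd ka rfl) p) (.inl τ)
      rw [msk_a hab] at this
      refine this.trans ?_
      congr 1
      split_ifs with e
      · rcases a with a | a | a
        · rfl
        · exact absurd (e.2 ▸ hle) (Nat.not_succ_le_zero _)
        · exact absurd (e.2 ▸ hle) (Nat.not_succ_le_zero _)
      · rfl
    · rw [if_neg fun e => absurd (e.1 ▸ e.2) one_ne_zero, zero_sub, ← neg_zero (G := MvPolynomial _ ℂ),
        neg_ite, neg_neg, Fmat_col, Fmat_col]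
      refine der_col dd _ _ _ a b (fun j => by simp [hab.1, hab.2.1, hab.2.2])
        (fun ε => (hd (kx ε) rfl).trans (msk_x hab hle ε)) (fun r => ?_) _ p
      rw [Pi.single_eq_of_ne (hW _), neg_zero, ite_self, Pi.single_apply]
      split_ifs <;> simp
    · rw [if_neg fun e => hW c e.1.symm]
      have : Fmat P (Ypol (J := J)) b (.inr (.inr c)) = 0 := if_neg (hW c)
      rw [this, ite_self, sub_zero]
      show dd (if _ then 1 else 0) = 0
      split_ifs <;> simp
  rw [Matrix.map_apply, key]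
  by_cases hb : blk b = 0
  · simp only [hb, and_true, if_true, comm_apply]
  · have := comm_apply 0 (Fmat P (Ypol (J := J))) a b p q
    simp only [hb, and_false, if_false, Matrix.mul_zero]
    rw [Matrix.zero_mul] at this
    rw [this]
    simp

theorem free_iff {g : G} : free g ↔ ∀ i a, co (3 * Nat.pair i a + 4) g = 0 := Iff.rfl

theorem free_qq : free qq := free_iff.2 fun i a => by
  rw [qq, co_gen, if_neg (by omega)]

theorem co_arr (n : ℕ) (ε : Arr Q) : co (3 * n + 4) (arrWt Q ε) = 0 := by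
  have h1 : co (3 * n + 4) tau = 0 := by rw [tau, co_gen, if_neg (by omega)]
  have h2 : ∀ e, co (3 * n + 4) (tE e) = 0 := fun e => by rw [tE, co_gen, if_neg (by omega)]
  rcases ε with ⟨_ | e, _ | _⟩ <;> simp [arrWt, h1, h2]

/-- The weight of a path. -/
noncomputable def pw (c : Pth Q w) : G := uF c.1.1 c.1.2 - (c.2.map fun s => arrWt Q s.1).sum

theorem free_pw (c : Pth Q w) : free (pw c) := free_iff.2 fun i a => by
  rw [pw, map_sub, map_list_sum, uF, co_gen, if_neg (by omega), List.map_map, zero_sub,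
    neg_eq_zero]
  exact List.sum_eq_zero fun x hx => by
    obtain ⟨s, -, rfl⟩ := List.mem_map.1 hx
    exact co_arr _ _

theorem xi_xV (τ : Bas Q D) (a : Bas Q v) : xi (.inl τ : Nb Q w v D) (xV a.1 a.2) = 0 := by
  show co _ (gen _) = 0
  rw [co_gen, if_neg]
  intro h
  obtain ⟨h1, h2⟩ := Nat.pair_eq_pair.1 (show Nat.pair a.1 a.2 = Nat.pair τ.1 (v τ.1 + τ.2) by omega)
  have h3 := a.2.2
  have h4 : v a.1 = v τ.1 := congrArg v (Fin.ext h1)
  omega

theorem card_lab {d : Bas Q v → ℕ} {lab : Bas Q D → Bas Q v × ℕ} (h : IsLab d lab) :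
    Fintype.card (Bas Q D) = ∑ a, d a := by
  have : (univ : Finset (Bas Q D)).card = (univ.sigma fun a => range (d a)).card :=
    card_bij (fun τ _ => ⟨(lab τ).1, (lab τ).2⟩) (fun τ _ => by simpa using h.lt τ)
      (fun τ _ τ' _ e => h.inj (Prod.ext (congrArg Sigma.fst e) (congrArg (fun s : Σ _ : Bas Q v, ℕ => s.2) e)))
      fun s hs => by
        obtain ⟨τ, e⟩ := h.surj s.1 s.2 (by simpa using hs)
        exact ⟨τ, mem_univ _, by simp [e]⟩
  simpa using this

theorem fold_wt {P : Bas Q v → Pth Q w} {φ : G} (h : PathOK P φ) :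
    ∑ b, pw (P b) - ∑ a : Bas Q v, xV a.1 a.2 = φ := by
  have h1 := (emb_mem (basWt Q w v) (arrWt Q) φ φ (Fold P)).1 h.2.2.2.1
  refine IsWeightedHomogeneous.inj_right h.2.1 ?_ h1
  refine (gr_wh _).det _ (fun b => pw (P b)) (fun a : Bas Q v => xV a.1 a.2) fun a b => ?_
  rw [Matrix.of_apply]
  refine (gr_wh _).col _ mat0 (basWt Q w v) (arrWt Q) (fun ε p q => ?_) (.inr (P b).1) (P b).2
    (.inl a)
  have := isWeightedHomogeneous_X ℂ (fun c => polWt (basWt Q w v) (arrWt Q) 0 (some c)) (ε, p, q)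
  rwa [show polWt (basWt Q w v) (arrWt Q) 0 (some (ε, p, q)) =
    basWt Q w v q - basWt Q w v p - arrWt Q ε by simp only [polWt]; abel] at this

variable [Fintype J] [DecidableEq J]

theorem grH : Gr (Homog (Q := Q) (w := w) (v := v) (D := D) (J := J)) := gr_mono E0G (wt bw 0)

theorem hom_x (ε : Arr Q) (p q : Nb Q w v D) :
    Homog (Ypol (J := J) (kx ε) p q) (bw q - bw p - arrWt Q ε) := by
  unfold Ypol msk
  split_ifs with h
  · exact mono_X (A := E0G) (c := wt bw 0) (e := .inl (.inl ε, p, q)) ⟨h, rfl⟩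
  · exact grH.zero _

theorem hom_a (p q : Nb Q w v D) : Homog (Ypol (J := J) ka p q) (bw q - bw p + qq) := by
  unfold Ypol msk
  split_ifs with h
  · rw [← sub_neg_eq_add]
    exact mono_X (A := E0G) (c := wt bw 0) (e := .inl (.inr true, p, q)) ⟨h, rfl⟩
  · exact grH.zero _

theorem hom_FP (P : Bas Q v → Pth Q w) : Homog (FP (D := D) (J := J) P)
    (Fintype.card (Bas Q D) • qq + ∑ b, (pw (P b) - xV b.1 b.2)) := by
  have := grH.det (Fmat P (Ypol (D := D) (J := J)))
    (Sum.elim (fun τ => bw (.inl τ : Nb Q w v D) + qq)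
      (Sum.elim (fun b => pw (P b)) fun c => bw (.inr (.inr c) : Nb Q w v D))) bw fun p q => by
      rcases q with τ | c | c
      · have := hom_a (J := J) p (.inl τ)
        rwa [show bw (.inl τ : Nb Q w v D) - bw p + qq = bw (.inl τ : Nb Q w v D) + qq - bw p by
          abel] at this
      · rw [Fmat_col]
        exact grH.col _ _ bw (arrWt Q) hom_x (.inr (.inr (P c).1)) (P c).2 p
      · exact grH.ite_one bw p (.inr (.inr c))
  convert this using 1
  · rfl
  simp only [Fintype.sum_sum_type, Sum.elim_inl, Sum.elim_inr, sum_add_distrib, sum_sub_distrib,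
    sum_const, card_univ]
  have e : ∀ b : Bas Q v, bw (.inr (.inl b) : Nb Q w v D) = xV b.1 b.2 := fun _ => rfl
  simp only [e]
  abel

theorem part1 (h : Glob2At Q w v D J) (P : Bas Q v → Pth Q w) (φ : G) (hP : PathOK P φ) :
    ∃ ψ, Homog (FP (D := D) (J := J) P) ψ ∧ (∀ τ, xi (.inl τ : Nb Q w v D) ψ = 0) ∧
    (∀ a b : Nb Q w v D, a ≠ b → arrow (.inr true) a b → blk a ≤ blk b →
      lie (J := J) rad a b (pol (FP P)) = 0) ∧
    ∀ (σ : Bas Q v ≃ Bas Q v) d (lab : Bas Q D → Bas Q v × ℕ) Λ, IsLab d lab →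
      LamOK (w := w) σ d lab Λ → Λ ψ = φ := by
  refine ⟨_, hom_FP P, fun τ => ?_, fun a b hne hab hle => ?_, fun σ d lab Λ hl hΛ => ?_⟩
  · have e : ∀ g, free g → xi (.inl τ : Nb Q w v D) g = 0 := fun g hg => hg _ _
    simp only [map_add, map_nsmul, map_sum, map_sub, e _ free_qq, e _ (free_pw _), xi_xV]
    simp
  · obtain ⟨dd, h1, h2⟩ := h.der a b
    rw [h1, der_FP P hne hab hle dd h2]
    exact Pi.single_zero _
  · have e : ∀ b : Bas Q v, Λ (xV b.1 b.2) = xV (σ b).1 (σ b).2 + d b • qq := fun b =>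
      (hΛ.bas (.inr (.inl b))).trans (by simp [xs, lv])
    simp only [map_add, map_nsmul, map_sum, map_sub, hΛ.fix _ free_qq, hΛ.fix _ (free_pw _), e,
      sum_sub_distrib, sum_add_distrib]
    rw [← fold_wt hP, Equiv.sum_comp σ fun b => xV b.1 b.2, ← sum_smul, card_lab hl]
    abel

end Pool.Agent.MP_8be872_ag.H56.SemiL
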