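import Pool.Agent.MP_8be872_ag.H56.Defs

/-! Interfaces of the modules of the proof (statements only). -/

namespace Pool.Agent.MP_8be872_ag.H56

open Finset

/-! ### Module Roots -/

/-- Positive real roots with negative pairing against `μ`. -/
def Qv.Inv (Q : Qv) (w : Fin Q.n → ℕ) (v α : Fin Q.n → ℤ) : Prop :=
  Q.RealRoot α ∧ (∀ j, 0 ≤ α j) ∧ Q.pairing w v α < 0

def RootsStmt : Prop :=
  ∀ Q : Qv, (∀ e, Q.hd e ≠ Q.tl e) →
    (∀ β, Q.RealRoot β → (∀ j, 0 ≤ β j) ∨ ∀ j, β j ≤ 0) ∧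
    (∀ w v, Q.Extremal w v → ∀ j, 0 ≤ v j) ∧
    (∀ w v, Q.Extremal w v → v ≠ 0 → ∃ i, (w i : ℤ) - Q.cart i v < 0) ∧
    (∀ w α, ¬ Q.Inv w 0 α) ∧
    (∀ i β, Q.refl i (Q.refl i β) = β) ∧
    (∀ w v i β, Q.pairing w v (Q.refl i β) =
      Q.pairing w (v + Pi.single i ((w i : ℤ) - Q.cart i v)) β) ∧
    (∀ w v i, Q.pairing w v (Pi.single i 1) = (w i : ℤ) - Q.cart i v) ∧
    ∀ w v i, (w i : ℤ) - Q.cart i v < 0 →
      (∀ α, Q.Inv w v α ↔ α = Pi.single i 1 ∨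
        Q.Inv w (v + Pi.single i ((w i : ℤ) - Q.cart i v)) (Q.refl i α)) ∧
      ¬ Q.Inv w (v + Pi.single i ((w i : ℤ) - Q.cart i v)) (Q.refl i (Pi.single i 1))

/-! ### Module Duality -/

section
variable {F : Type} [Field F]

/-- `(h m; q)_r / (q m; q)_r`. -/
def rho (q h m : F) (r : ℕ) : F := ∏ j ∈ range r, (1 - h * q ^ j * m) / (1 - q ^ (j + 1) * m)

/-- A term of the vertex function of `T^*Gr` at the fixed point `I`. -/
def Aterm {ι : Type} (q h : F) (Y : ι → F) (I C : Finset ι) (δ : ι → ℕ) : F :=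
  (∏ b ∈ I, ∏ b' ∈ I, rho q h (q ^ ((δ b : ℤ) - δ b') * (Y b / Y b')) (δ b')) *
    ∏ b ∈ I, ∏ c ∈ C, rho q h (Y b / Y c) (δ b)

noncomputable def VA {ι : Type} [DecidableEq ι] (q h : F) (Y : ι → F) (I C : Finset ι) :
    PowerSeries F :=
  PowerSeries.mk fun k => ∑ δ ∈ piAntidiag I k, Aterm q h Y I C δ

/-- `∑ (h)_r / (q)_r (c X)^r`. -/
noncomputable def Fser (q h c : F) : PowerSeries F := PowerSeries.mk fun r => rho q h 1 r * c ^ r

end

def DualStmt : Prop :=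
  ∀ (F : Type) [Field F] (ι : Type) [DecidableEq ι] (q h : F) (Y : ι → F) (I C : Finset ι),
    Disjoint I C → q ≠ 0 → h ≠ 0 → (∀ j : ℤ, j ≠ 0 → q ^ j ≠ 1) → (∀ j : ℤ, h * q ^ j ≠ 1) →
    (∀ b ∈ I ∪ C, Y b ≠ 0) →
    (∀ b ∈ I ∪ C, ∀ c ∈ I ∪ C, b ≠ c → ∀ j : ℤ, q ^ j * Y b ≠ Y c ∧ h * q ^ j * Y b ≠ Y c) →
    VA q h Y I C * ∏ k ∈ range C.card, Fser q h ((h / q) ^ k) =
      VA q h (fun b => (Y b)⁻¹) C I * ∏ k ∈ range I.card, Fser q h ((h / q) ^ k)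

/-! ### Module Span -/

/-- The total order refining `d` with tie break `r`: `Above d r a a'` means `a ≻ a'`. -/
def Above {α : Type} (d r : α → ℤ) (a a' : α) : Prop := d a' < d a ∨ (d a' = d a ∧ r a' < r a)

instance {α : Type} (d r : α → ℤ) (a a' : α) : Decidable (Above d r a a') := by
  unfold Above; infer_instance

section
variable {F : Type} [Field F] {ι : Type} [Fintype ι] [DecidableEq ι]

/-- Numerator of the fixed part at a node (Borel form), at the values `X a` of the roots. -/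
def numB {v : ℕ} (h : F) (d r : Fin v → ℤ) (X : Fin v → F) : F :=
  ∏ a, ∏ a', (if Above d r a a' then 1 - X a' / X a else 1) *
    (if d a ≤ d a' then 1 - h * (X a / X a') else 1)

/-- Denominator of the residue at `x_a = Y (σ a)`. -/
def denR {v : ℕ} (h : F) (Y : ι → F) (e : ι → ℤ) (d : Fin v → ℤ) (σ : Fin v → ι) : F :=
  ∏ a, ∏ b, (if e b ≤ d a ∧ b ≠ σ a then 1 - Y b / Y (σ a) else 1) *
    (if d a ≤ e b then 1 - h * (Y (σ a) / Y b) else 1)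

/-- The residue term of the injection `σ`, with insertion `∏ x_a ^ ν a`. -/
noncomputable def TB {v : ℕ} (h : F) (Y : ι → F) (e : ι → ℤ) (d r ν : Fin v → ℤ)
    (σ : Fin v ↪ ι) : F :=
  if ∀ a, e (σ a) ≤ d a then
    (∏ a, Y (σ a) ^ ν a) * numB h d r (fun a => Y (σ a)) / denR h Y e d σ
  else 0

/-- The component at the subset `I`. -/
noncomputable def vecB {v : ℕ} (h : F) (Y : ι → F) (e : ι → ℤ) (d r ν : Fin v → ℤ)
    (I : Finset ι) : F :=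
  ∑ σ : Fin v ↪ ι with univ.map σ = I, TB h Y e d r ν σ

end

def SpanStmt : Prop :=
  ∀ (F : Type) [Field F] (ι : Type) [Fintype ι] [DecidableEq ι] (h : F) (Y : ι → F) (e : ι → ℤ)
    (v v' : ℕ), v + v' = Fintype.card ι → h ≠ 0 → (∀ b, Y b ≠ 0) →
    (∀ b c, b ≠ c → Y b ≠ Y c) → (∀ b c, h * Y b ≠ Y c) →
    ∀ d r ν : Fin v → ℤ, Function.Injective r →
      vecB h Y e d r ν ∈ AddSubgroup.closure
        {f : Finset ι → F | ∃ (j : ℤ) (κ : ι → ℤ) (d' r' ν' : Fin v' → ℤ),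
          Function.Injective r' ∧
          f = fun I => h ^ j * (∏ b, Y b ^ κ b) *
            vecB h (fun b => (Y b)⁻¹) (fun b => -e b) d' r' ν' Iᶜ}

/-! ### Module Series -/

/-- Coefficient at an integer vector (zero outside the positive cone). -/
noncomputable def co {n : ℕ} (P : MvPowerSeries (Fin n) K) (D : Fin n → ℤ) : K :=
  if ∀ i, 0 ≤ D i then
    MvPowerSeries.coeff (Finsupp.equivFunOnFinite.symm fun i => (D i).toNat) P else 0

/-- The product side in the variables `Z_i = e^(α_i)`. -/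
noncomputable def ProdZ {n : ℕ} (S : Finset (Fin n →₀ ℕ)) (mult : (Fin n →₀ ℕ) → ℕ) :
    MvPowerSeries (Fin n) K :=
  ∏ α ∈ S, ∏ k ∈ range (mult α),
    (Fser qq hb 1).subst (MvPowerSeries.monomial α ((hb / qq) ^ k) : MvPowerSeries (Fin n) K)

def SeriesStmt : Prop :=
  (PowerSeries.constantCoeff Phi = 1 ∧
    Phi = (1 - PowerSeries.X) * PowerSeries.rescale qq Phi) ∧
  (∀ (Q : Qv) (v : Fin Q.n → ℕ) (S : Finset (Fin Q.n →₀ ℕ)) (mult : (Fin Q.n →₀ ℕ) → ℕ),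
    0 ∉ S → MvPowerSeries.rescale (fun i => (qq / hb) ^ Q.bexp v i) (ProdZ S mult) =
      ∏ α ∈ S, ∏ k ∈ range (mult α),
        (Phi.subst (Q.eroot v (hb * (hb / qq) ^ k) α) *
          (Phi.subst (Q.eroot v ((hb / qq) ^ k) α))⁻¹)) ∧
  ∀ (n : ℕ) (i : Fin n) (φ : (Fin n → ℤ) → Fin n → ℤ) (S S' : Finset (Fin n →₀ ℕ))
    (mult mult' : (Fin n →₀ ℕ) → ℕ),
    (∀ β β', φ (β + β') = φ β + φ β') → (∀ β, φ (φ β) = β) → 0 ∉ S' →
    Finsupp.single i 1 ∈ S →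
    (∀ α ∈ S', ∃ α₁ ∈ S, α₁ ≠ Finsupp.single i 1 ∧ (fun j => (α₁ j : ℤ)) = φ fun j => α j) →
    (∀ α₁ ∈ S, α₁ ≠ Finsupp.single i 1 → ∃ α ∈ S', (fun j => (α₁ j : ℤ)) = (φ fun j => α j) ∧
      mult α₁ = mult' α) →
    ∀ (D : Fin n → ℤ) (N : ℕ), D i < N →
      co (ProdZ S mult) D = ∑ r ∈ range N,
        PowerSeries.coeff r (∏ k ∈ range (mult (Finsupp.single i 1)), Fser qq hb ((hb / qq) ^ k)) *
          co (ProdZ S' mult') (φ (D - Pi.single i (r : ℤ)))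

end Pool.Agent.MP_8be872_ag.H56
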